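import Pool.Agent.N410.TE.Steps
import Pool.Agent.TH559.LE.Bkw

/-!
# Reducible bipartite subgraphs between vertices of degree three and other vertices
-/

set_option autoImplicit false
set_option linter.unusedSectionVars false

namespace Pool.Agent.N410.TE

open Finset

variable {V : Type} [Fintype V] [DecidableEq V] {G H : SimpleGraph V} {hv : Finset V}
  {EG EH : Finset (Sym2 V)} {Δ r : ℕ} {L : V → Finset ℕ} {M : Sym2 V → Finset ℕ}
  {k : ℕ} {c0 : V → ℕ} {g0 : Sym2 V → ℕ}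

theorem dE_add_le {A B C : Finset (Sym2 V)} (hAB : Disjoint A B) {v : V}
    (hA : ∀ e ∈ A, v ∈ e → e ∈ C) (hB : ∀ e ∈ B, v ∈ e → e ∈ C) : dE A v + dE B v ≤ dE C v := by
  unfold dE
  rw [← card_union_of_disjoint (disjoint_filter_filter hAB)]
  refine card_le_card fun e he => ?_
  rcases mem_union.1 he with he | he
  · obtain ⟨h1, h2⟩ := mem_filter.1 he
    exact mem_filter.2 ⟨hA e h1 h2, h2⟩
  · obtain ⟨h1, h2⟩ := mem_filter.1 he
    exact mem_filter.2 ⟨hB e h1 h2, h2⟩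

/-- colour the edges of a bipartite graph -/
theorem addB {E0 B : Finset (Sym2 V)} {X : Finset V} {c : V → ℕ} {g : Sym2 V → ℕ}
    (h : Good L M G hv EH c0 g0 E0 (univ \ X) c g)
    (hB : ∀ e ∈ B, ∃ x ∈ X, ∃ y, y ∉ X ∧ e = s(x, y)) (hBH : Disjoint EH B)
    (hM : ∀ x ∈ X, ∀ y, y ∉ X → s(x, y) ∈ B →
      max (dE B x) (dE B y) + (dE E0 x + dE E0 y + 1) ≤ (M s(x, y)).card) :
    ∃ g', Good L M G hv EH c0 g0 (E0 ∪ B) (univ \ X) c g' := by
  classical
  set B' : Finset (V × V) := univ.filter (fun p => p.1 ∈ X ∧ p.2 ∉ X ∧ s(p.1, p.2) ∈ B) with hB'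
  have memB : ∀ p, p ∈ B' ↔ p.1 ∈ X ∧ p.2 ∉ X ∧ s(p.1, p.2) ∈ B := by simp [hB']
  set Lst : V × V → Finset ℕ := fun p => M s(p.1, p.2) \
    ((E0.filter (fun e => p.1 ∈ e)).image g ∪ (E0.filter (fun e => p.2 ∈ e)).image g ∪ {c p.2})
    with hLst
  have hL1 : ∀ p ∈ B', max (B'.filter (fun f => f.1 = p.1)).card
      (B'.filter (fun f => f.2 = p.2)).card ≤ (Lst p).card := by
    rintro ⟨x, y⟩ hp
    obtain ⟨hx, hy, hxy⟩ := (memB _).1 hp
    simp only at hx hy hxy
    have h1 : (B'.filter (fun f => f.1 = x)).card ≤ dE B x := by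
      unfold dE
      refine card_le_card_of_injOn (fun f => s(f.1, f.2)) ?_ ?_
      · rintro ⟨a, b⟩ hf
        obtain ⟨hf1, hf2⟩ := mem_filter.1 (mem_coe.1 hf)
        simp only at hf2
        subst hf2
        exact mem_filter.2 ⟨((memB _).1 hf1).2.2, Sym2.mem_mk_left _ _⟩
      · rintro ⟨a, b⟩ hf ⟨a', b'⟩ hf' heq
        have e1 := (mem_filter.1 (mem_coe.1 hf)).2
        have e2 := (mem_filter.1 (mem_coe.1 hf')).2
        simp only at e1 e2 heq
        subst e1
        subst e2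
        rw [Sym2.congr_right] at heq
        rw [heq]
    have h2 : (B'.filter (fun f => f.2 = y)).card ≤ dE B y := by
      unfold dE
      refine card_le_card_of_injOn (fun f => s(f.1, f.2)) ?_ ?_
      · rintro ⟨a, b⟩ hf
        obtain ⟨hf1, hf2⟩ := mem_filter.1 (mem_coe.1 hf)
        simp only at hf2
        subst hf2
        exact mem_filter.2 ⟨((memB _).1 hf1).2.2, Sym2.mem_mk_right _ _⟩
      · rintro ⟨a, b⟩ hf ⟨a', b'⟩ hf' heq
        have e1 := (mem_filter.1 (mem_coe.1 hf)).2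
        have e2 := (mem_filter.1 (mem_coe.1 hf')).2
        simp only at e1 e2 heq
        subst e1
        subst e2
        rw [Sym2.congr_left] at heq
        rw [heq]
    have h3 : ((E0.filter (fun e => x ∈ e)).image g ∪ (E0.filter (fun e => y ∈ e)).image g ∪
        {c y}).card ≤ dE E0 x + dE E0 y + 1 := by
      refine (card_union_le _ _).trans (Nat.add_le_add ((card_union_le _ _).trans
        (Nat.add_le_add card_image_le card_image_le)) ?_)
      rw [card_singleton]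
    have h4 := hM x hx y hy hxy
    have h5 := le_card_sdiff ((E0.filter (fun e => x ∈ e)).image g ∪
      (E0.filter (fun e => y ∈ e)).image g ∪ {c y}) (M s(x, y))
    have h6 : (Lst (x, y)).card = (M s(x, y) \ ((E0.filter (fun e => x ∈ e)).image g ∪
      (E0.filter (fun e => y ∈ e)).image g ∪ {c y})).card := rfl
    have h7 : max (B'.filter (fun f => f.1 = x)).card (B'.filter (fun f => f.2 = y)).card ≤
      max (dE B x) (dE B y) := max_le_max h1 h2
    show max (B'.filter (fun f => f.1 = x)).card (B'.filter (fun f => f.2 = y)).card ≤ _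
    rw [h6]
    omega
  obtain ⟨φ, hφ⟩ := Pool.Agent.TH559.LE.bkw B' Lst (fun e he => by
    refine le_trans (le_of_eq ?_) (hL1 e he)
    congr!)
  have hpr : ∀ e : Sym2 V, ∃ p : V × V, e ∈ B → p ∈ B' ∧ s(p.1, p.2) = e := by
    intro e
    by_cases he : e ∈ B
    · obtain ⟨x, hx, y, hy, rfl⟩ := hB e he
      exact ⟨(x, y), fun _ => ⟨(memB _).2 ⟨hx, hy, he⟩, rfl⟩⟩
    · induction e using Sym2.ind with
      | _ a b => exact ⟨(a, b), fun h => absurd h he⟩
  choose pr hpr using hpr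
  have hpX : ∀ e ∈ B, (pr e).1 ∈ X := fun e he => ((memB _).1 (hpr e he).1).1
  have hpY : ∀ e ∈ B, (pr e).2 ∉ X := fun e he => ((memB _).1 (hpr e he).1).2.1
  have hmem : ∀ e ∈ B, ∀ v, v ∈ e ↔ v = (pr e).1 ∨ v = (pr e).2 := by
    intro e he v
    have h1 := (hpr e he).2
    constructor
    · intro hv1
      rw [← h1] at hv1
      exact Sym2.mem_iff.1 hv1
    · intro hv1
      rw [← h1]
      exact Sym2.mem_iff.2 hv1
  have hav : ∀ e ∈ B, φ (pr e) ∈ M e ∧ (∀ f ∈ E0, ∀ v, v ∈ e → v ∈ f → φ (pr e) ≠ g f) ∧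
      φ (pr e) ≠ c (pr e).2 := by
    intro e he
    have h1 := (hφ _ (hpr e he).1).1
    rw [hLst] at h1
    simp only [mem_sdiff, mem_union, not_or, mem_singleton, (hpr e he).2] at h1
    refine ⟨h1.1, fun f hf v hve hvf h2 => ?_, h1.2.2⟩
    rcases (hmem e he v).1 hve with rfl | rfl
    · exact h1.2.1.1 (mem_image.2 ⟨f, mem_filter.2 ⟨hf, hvf⟩, h2.symm⟩)
    · exact h1.2.1.2 (mem_image.2 ⟨f, mem_filter.2 ⟨hf, hvf⟩, h2.symm⟩)
  refine ⟨fun e => if e ∈ B then φ (pr e) else g e, ?_, h.nbr, ?_, ?_, h.pc, ?_,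
    h.lc, ?_⟩
  · intro u v he hu hv1
    rcases mem_union.1 he with he | he
    · exact h.col u v he hu hv1
    · exfalso
      obtain ⟨x, hx, y, _, hxy⟩ := hB _ he
      have hxe : x ∈ s(u, v) := by
        rw [hxy]
        exact Sym2.mem_mk_left _ _
      rcases Sym2.mem_iff.1 hxe with rfl | rfl
      · exact (mem_sdiff.1 hu).2 hx
      · exact (mem_sdiff.1 hv1).2 hx
  · intro e he f hf hef v hve hvf
    by_cases heB : e ∈ B <;> by_cases hfB : f ∈ B
    · rw [if_pos heB, if_pos hfB]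
      have hne : pr f ≠ pr e := by
        intro h1
        apply hef
        rw [← (hpr e heB).2, ← (hpr f hfB).2, h1]
      refine ((hφ _ (hpr e heB).1).2 _ (hpr f hfB).1 hne ?_).symm
      rcases (hmem e heB v).1 hve with h1 | h1 <;> rcases (hmem f hfB v).1 hvf with h2 | h2
      · exact Or.inl (h2.symm.trans h1)
      · exact absurd (hpX e heB) (by rw [← h1, h2]; exact hpY f hfB)
      · exact absurd (hpX f hfB) (by rw [← h2, h1]; exact hpY e heB)
      · exact Or.inr (h2.symm.trans h1)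
    · rw [if_pos heB, if_neg hfB]
      exact (hav e heB).2.1 f ((mem_union.1 hf).resolve_right hfB) v hve hvf
    · rw [if_neg heB, if_pos hfB]
      exact ((hav f hfB).2.1 e ((mem_union.1 he).resolve_right heB) v hvf hve).symm
    · rw [if_neg heB, if_neg hfB]
      exact h.edg e ((mem_union.1 he).resolve_right heB) f ((mem_union.1 hf).resolve_right hfB) hef
        v hve hvf
  · intro e he v hve hvs
    by_cases heB : e ∈ B
    · rw [if_pos heB]
      rcases (hmem e heB v).1 hve with h1 | h1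
      · exact absurd (hpX e heB) (by rw [← h1]; exact (mem_sdiff.1 hvs).2)
      · rw [h1]
        exact (hav e heB).2.2
    · rw [if_neg heB]
      exact h.inc e ((mem_union.1 he).resolve_right heB) v hve hvs
  · intro e he
    rw [if_neg (fun h1 => disjoint_left.1 hBH he h1)]
    exact h.pe e he
  · intro e he heH
    by_cases heB : e ∈ B
    · rw [if_pos heB]
      exact (hav e heB).1
    · rw [if_neg heB]
      exact h.ld e ((mem_union.1 he).resolve_right heB) heH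

/-- colour vertices of small degree -/
theorem addX (S : Setting G H hv EG EH Δ) (hLs : ∀ v, v ∉ hv → k ≤ (L v).card)
    {E1 : Finset (Sym2 V)} (hE1 : E1 ⊆ EG) {g : Sym2 V → ℕ} (S0 T : Finset V) (d : ℕ)
    (hd : 2 * d + 2 < k) : (∀ x ∈ T, x ∉ hv ∧ dE E1 x ≤ d) →
    (∃ c, Good L M G hv EH c0 g0 E1 S0 c g) → ∃ c, Good L M G hv EH c0 g0 E1 (S0 ∪ T) c g := by
  induction T using Finset.induction_on with
  | empty =>
    intro _ h
    rw [union_empty]
    exact h
  | @insert x T hxT ih =>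
    intro h1 h
    obtain ⟨c, hc⟩ := ih (fun y hy => h1 y (mem_insert_of_mem hy)) h
    obtain ⟨hx, hdx⟩ := h1 x (mem_insert_self _ _)
    obtain ⟨c2, hg2⟩ := add_vertex hc (fun v hv => (S.ne (hE1 hv)) rfl) hx
      (hLs x hx)
      (hv.filter (fun u => s(x, u) ∈ EG)) (fun u hu hxu => mem_filter.2 ⟨hu, (S.memG _).2 hxu⟩)
      (S.fz_card (y := x) _ (filter_subset _ _) (fun u hu => (mem_filter.1 hu).2)) (by omega)
    refine ⟨c2, ?_⟩
    rw [union_insert]
    exact hg2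

/-- the frozen edges at the vertices of `T` -/
def fzE (E : Finset (Sym2 V)) (Z T : Finset V) : Finset (Sym2 V) :=
  T.biUnion (fun x => (fz E Z x).image (fun u => s(x, u)))

theorem mem_fzE {E : Finset (Sym2 V)} {Z T : Finset V} {e : Sym2 V} :
    e ∈ fzE E Z T ↔ ∃ x ∈ T, ∃ u ∈ fz E Z x, s(x, u) = e := by
  simp [fzE]

/-- colour the frozen edges at several vertices -/
theorem addF (S : Setting G H hv EG EH Δ) (hMs : ∀ e ∈ EG, e ∉ EH → k ≤ (M e).card)
    {E E1 : Finset (Sym2 V)} (hE : E ⊆ EG) {Z : Finset V}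
    (hZ : Inv H hv EH Δ r E Z) (hE1 : E1 ⊆ E) {c : V → ℕ} (d : ℕ) (h1 : d + r + 3 < k)
    (T : Finset V) : (∀ x ∈ T, x ∉ hv ∧ dE E1 x ≤ d ∧ ∀ u ∈ Z, s(x, u) ∉ E1) →
    (∃ g, Good L M G hv EH c0 g0 E1 univ c g) →
    ∃ g, Good L M G hv EH c0 g0 (E1 ∪ fzE E Z T) univ c g := by
  induction T using Finset.induction_on with
  | empty =>
    intro _ h
    have : fzE E Z ∅ = ∅ := rfl
    rw [this, union_empty]
    exact h
  | @insert x T hxT ih =>
    intro h2 h
    obtain ⟨g, hg⟩ := ih (fun y hy => h2 y (mem_insert_of_mem hy)) h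
    obtain ⟨hx, hdx, hxZ⟩ := h2 x (mem_insert_self _ _)
    have hsub : fzE E Z T ⊆ E := by
      intro e he
      obtain ⟨y, _, u, hu, rfl⟩ := mem_fzE.1 he
      exact (mem_fz.1 hu).2
    have hnx : ∀ e ∈ fzE E Z T, x ∉ e := by
      intro e he hxe
      obtain ⟨y, hy, u, hu, rfl⟩ := mem_fzE.1 he
      rcases Sym2.mem_iff.1 hxe with rfl | rfl
      · exact hxT hy
      · exact hx (hZ.sub (mem_fz.1 hu).1)
    have hdx2 : dE (E1 ∪ fzE E Z T) x ≤ d := by
      refine (dE_union_le _ _ x).trans ?_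
      have : dE (fzE E Z T) x = 0 := by
        unfold dE
        rw [card_eq_zero, filter_eq_empty_iff]
        exact fun {e} he => hnx e he
      omega
    obtain ⟨g3, hg3⟩ := addU S hMs hE hZ hx (fz E Z x) (filter_subset _ _)
      (fun u hu => (mem_fz.1 hu).2) (fun u hu h5 => by
        rcases mem_union.1 h5 with h5 | h5
        · exact hxZ u (mem_fz.1 hu).1 h5
        · exact hnx _ h5 (Sym2.mem_mk_left _ _)) (union_subset hE1 hsub) d hdx2 (by omega)
      (fun u _ w _ _ n h3 h4 => by omega) hg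
    refine ⟨g3, hg3.mono ?_ (Subset.refl _)⟩
    intro e he
    rcases mem_union.1 he with he | he
    · exact mem_union_left _ (mem_union_left _ he)
    · obtain ⟨y, hy, u, hu, rfl⟩ := mem_fzE.1 he
      rcases mem_insert.1 hy with rfl | hy
      · exact mem_union_right _ (mem_image_of_mem _ hu)
      · exact mem_union_left _ (mem_union_right _ (mem_fzE.2 ⟨y, hy, u, hu, rfl⟩))

/-- **Fourth step**: a bipartite subgraph between vertices of small degree outside `H` and other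
vertices. -/
theorem step4 (S : Setting G H hv EG EH Δ) (hLs : ∀ v, v ∉ hv → k ≤ (L v).card)
    (hMs : ∀ e ∈ EG, e ∉ EH → k ≤ (M e).card) (hk : k = Δ + 2) (hΔ : 2 * r + 2 ≤ Δ)
    {E : Finset (Sym2 V)} (hEG : E ⊆ EG) {Z : Finset V}
    (hZ : Inv H hv EH Δ r E Z) (B : Finset (Sym2 V)) (hBQ : B ⊆ nf E Z \ EH) (X : Finset V)
    (hX : ∀ x ∈ X, x ∉ hv ∧ dE (nf E Z \ EH) x ≤ r)
    (hB1 : ∀ e ∈ B, ∃ x ∈ X, ∃ y, y ∉ X ∧ e = s(x, y))
    (hB2 : ∀ x ∈ X, ∀ y, y ∉ X → s(x, y) ∈ B →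
      dE (nf E Z \ EH) x ≤ dE B x + 1 ∧ dE (nf E Z \ EH) x ≤ dE B y + 1)
    (ih : ∃ c g, Good L M G hv EH c0 g0
      (E.filter (fun e => e ∉ B ∧ ∀ x ∈ X, x ∈ e → e ∈ nf E Z)) univ c g) :
    ∃ c g, Good L M G hv EH c0 g0 E univ c g := by
  classical
  obtain ⟨c, g, hg⟩ := ih
  set E0 := E.filter (fun e => e ∉ B ∧ ∀ x ∈ X, x ∈ e → e ∈ nf E Z) with hE0
  have hE0E : E0 ⊆ E := filter_subset _ _
  have hBE : B ⊆ E := fun e he => (mem_nf.1 (mem_sdiff.1 (hBQ he)).1).1
  have hdis : Disjoint E0 B := disjoint_left.2 fun e he => (mem_filter.1 he).2.1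
  have hdisH : Disjoint EH B := disjoint_left.2 fun e he heB => (mem_sdiff.1 (hBQ heB)).2 he
  have hxQ : ∀ x ∈ X, ∀ e ∈ E0, x ∈ e → e ∈ nf E Z \ EH := fun x hx e he hxe =>
    mem_sdiff.2 ⟨(mem_filter.1 he).2.2 x hx hxe, fun h => S.not_hv (hX x hx).1 h hxe⟩
  have hxd : ∀ x ∈ X, dE E0 x + dE B x ≤ dE (nf E Z \ EH) x := fun x hx =>
    dE_add_le hdis (hxQ x hx) (fun e he _ => hBQ he)
  obtain ⟨g1, hg1⟩ := addB (hg.mono (Subset.refl _) (subset_univ (univ \ X))) hB1 hdisH (by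
    intro x hx y hy hxy
    have h1 := hxd x hx
    have h2 : dE E0 y + dE B y ≤ dE EG y :=
      dE_add_le hdis (fun e he _ => hEG (hE0E he)) (fun e he _ => hEG (hBE he))
    have h3 := S.deg y
    obtain ⟨h4, h5⟩ := hB2 x hx y hy hxy
    have h6 := hMs _ (hEG (hBE hxy)) (mem_sdiff.1 (hBQ hxy)).2
    rcases max_cases (dE B x) (dE B y) with ⟨h7, _⟩ | ⟨h7, _⟩ <;> rw [h7] <;> omega)
  have hE1E : E0 ∪ B ⊆ E := union_subset hE0E hBE
  have hd1 : ∀ x ∈ X, dE (E0 ∪ B) x ≤ r := fun x hx =>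
    (dE_union_le _ _ x).trans ((hxd x hx).trans (hX x hx).2)
  obtain ⟨c2, hg2⟩ := addX S hLs (hE1E.trans hEG) (univ \ X) X r (by omega)
    (fun x hx => ⟨(hX x hx).1, hd1 x hx⟩) ⟨c, hg1⟩
  have hu : (univ \ X) ∪ X = univ := sdiff_union_of_subset (subset_univ X)
  rw [hu] at hg2
  obtain ⟨g3, hg3⟩ := addF S hMs hEG hZ hE1E r (by omega) X (fun x hx => by
    refine ⟨(hX x hx).1, hd1 x hx, fun u hu h => ?_⟩
    rcases mem_union.1 h with h | h
    · exact (mem_nf.1 (mem_sdiff.1 (hxQ x hx _ h (Sym2.mem_mk_left _ _))).1).2 u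
        (Sym2.mem_mk_right _ _) hu
    · exact (mem_nf.1 (mem_sdiff.1 (hBQ h)).1).2 u (Sym2.mem_mk_right _ _) hu) ⟨g1, hg2⟩
  refine ⟨c2, g3, hg3.mono ?_ (Subset.refl _)⟩
  intro e he
  by_cases heB : e ∈ B
  · exact mem_union_left _ (mem_union_right _ heB)
  · by_cases hall : ∀ x ∈ X, x ∈ e → e ∈ nf E Z
    · exact mem_union_left _ (mem_union_left _ (mem_filter.2 ⟨he, heB, hall⟩))
    · push Not at hall
      obtain ⟨x, hx, hxe, hnf⟩ := hall
      have hxZ : x ∉ Z := fun h => (hX x hx).1 (hZ.sub h)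
      rcases decomp hxZ he hxe with h | ⟨u, hu, rfl⟩
      · exact absurd h hnf
      · exact mem_union_right _ (mem_fzE.2 ⟨x, hx, u, hu, rfl⟩)

end Pool.Agent.N410.TE
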