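import Pool.Agent.N410.TE.Main3

/-!
# Counting: sparse sets of edges have reducible configurations
-/

set_option autoImplicit false
set_option linter.unusedSectionVars false

namespace Pool.Agent.N410.TE

open Finset

variable {V : Type} [Fintype V] [DecidableEq V]

/-- the vertices covered by the edges of `Q` -/
def cov (Q : Finset (Sym2 V)) : Finset V := univ.filter (fun v => 1 ≤ dE Q v)

theorem mem_cov {Q : Finset (Sym2 V)} {v : V} : v ∈ cov Q ↔ 1 ≤ dE Q v := by simp [cov]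

theorem mem_cov' {Q : Finset (Sym2 V)} {v : V} : v ∈ cov Q ↔ ∃ e ∈ Q, v ∈ e := by
  rw [mem_cov]
  unfold dE
  rw [Nat.succ_le_iff, card_pos]
  constructor
  · rintro ⟨e, he⟩
    exact ⟨e, (mem_filter.1 he).1, (mem_filter.1 he).2⟩
  · rintro ⟨e, he, hv⟩
    exact ⟨e, mem_filter.2 ⟨he, hv⟩⟩

theorem cov_mono {Q F : Finset (Sym2 V)} (h : F ⊆ Q) : cov F ⊆ cov Q := fun v hv => by
  rw [mem_cov] at hv ⊢
  exact hv.trans (dE_mono h v)

theorem sum_dE (Q : Finset (Sym2 V)) (hQ : ∀ e ∈ Q, ¬ e.IsDiag) :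
    ∑ v ∈ cov Q, dE Q v = 2 * Q.card := by
  have h1 : ∑ v ∈ cov Q, dE Q v = ∑ v : V, dE Q v := by
    refine sum_subset (subset_univ _) fun v _ hv => ?_
    rw [mem_cov] at hv
    omega
  rw [h1]
  unfold dE
  simp_rw [card_filter]
  rw [sum_comm, mul_comm, ← smul_eq_mul, ← sum_const]
  refine sum_congr rfl fun e he => ?_
  rw [← card_filter]
  have h2 := Sym2.card_toFinset_of_not_isDiag e (hQ e he)
  rw [← h2]
  congr 1
  ext v
  simp

theorem card_meet (Q : Finset (Sym2 V)) (X : Finset V)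
    (h : ∀ e ∈ Q, ∀ x ∈ X, ∀ y ∈ X, x ∈ e → y ∈ e → x = y) :
    (Q.filter (fun e => ∃ x ∈ X, x ∈ e)).card = ∑ x ∈ X, dE Q x := by
  classical
  have h1 : Q.filter (fun e => ∃ x ∈ X, x ∈ e) = X.biUnion (fun x => Q.filter (fun e => x ∈ e)) := by
    ext e
    simp only [mem_filter, mem_biUnion]
    constructor
    · rintro ⟨he, x, hx, hxe⟩
      exact ⟨x, hx, he, hxe⟩
    · rintro ⟨x, hx, he, hxe⟩
      exact ⟨he, x, hx, hxe⟩
  rw [h1, card_biUnion]
  · rfl
  · intro x hx y hy hxy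
    rw [Function.onFun, disjoint_left]
    intro e he1 he2
    exact hxy (h e (mem_filter.1 he1).1 x hx y hy (mem_filter.1 he1).2 (mem_filter.1 he2).2)

/-- a set of edges has a nonempty subset without vertices of degree one, or is small -/
theorem leaf (n : ℕ) : ∀ B : Finset (Sym2 V), B.card = n →
    (∃ B' ⊆ B, B'.Nonempty ∧ ∀ e ∈ B', ∀ v ∈ e, 2 ≤ dE B' v) ∨ B.card ≤ (cov B).card := by
  classical
  induction n using Nat.strong_induction_on with
  | _ n ih =>
    intro B hn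
    rcases B.eq_empty_or_nonempty with rfl | hne
    · right
      simp
    by_cases hall : ∀ e ∈ B, ∀ v ∈ e, 2 ≤ dE B v
    · exact Or.inl ⟨B, Subset.refl _, hne, hall⟩
    push Not at hall
    obtain ⟨e, he, v, hve, hlt⟩ := hall
    have h1 := card_erase_add_one he
    rcases ih (B.erase e).card (by omega) (B.erase e) rfl with ⟨B', hB', h2, h3⟩ | h2
    · exact Or.inl ⟨B', hB'.trans (erase_subset _ _), h2, h3⟩
    · right
      have h3 : dE (B.erase e) v + 1 ≤ dE B v := dE_lt (erase_subset _ _) he (notMem_erase _ _) hve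
      have h4 : v ∉ cov (B.erase e) := by
        rw [mem_cov]
        omega
      have h5 : (cov (B.erase e)).card + 1 ≤ (cov B).card := by
        rw [← card_insert_of_notMem h4]
        refine card_le_card (insert_subset (mem_cov.2 (by omega)) (cov_mono (erase_subset _ _)))
      omega

/-- counting the edges at the vertices of degree at most `t` -/
theorem count (Q : Finset (Sym2 V)) (hdiag : ∀ e ∈ Q, ¬ e.IsDiag) (t s m : ℕ) (hts : t < s)
    (hm : ∀ v ∈ cov Q, m ≤ dE Q v)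
    (hedge : ∀ x y, s(x, y) ∈ Q → dE Q x ≤ t → s ≤ dE Q y)
    (hF : (Q.filter (fun e => ∃ x ∈ (cov Q).filter (fun v => dE Q v ≤ t), x ∈ e)).card ≤
      m * (cov (Q.filter (fun e => ∃ x ∈ (cov Q).filter (fun v => dE Q v ≤ t), x ∈ e))).card) :
    ∑ v ∈ cov Q, (if dE Q v ≤ t then dE Q v - m else 0) ≤
      m * ∑ v ∈ cov Q, (if s ≤ dE Q v then 1 else 0) := by
  classical
  set X := (cov Q).filter (fun v => dE Q v ≤ t) with hX
  set Y := (cov Q).filter (fun v => s ≤ dE Q v) with hY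
  set F := Q.filter (fun e => ∃ x ∈ X, x ∈ e) with hFd
  have h1 : F.card = ∑ x ∈ X, dE Q x := by
    refine card_meet Q X fun e he x hx y hy hxe hye => ?_
    by_contra hne
    have h2 : e = s(x, y) := ((Sym2.mem_and_mem_iff hne).1 ⟨hxe, hye⟩)
    have h3 := hedge x y (h2 ▸ he) (mem_filter.1 hx).2
    have h4 := (mem_filter.1 hy).2
    omega
  have h2 : cov F ⊆ X ∪ Y := by
    intro v hv
    obtain ⟨e, he, hve⟩ := mem_cov'.1 hv
    obtain ⟨heQ, x, hx, hxe⟩ := mem_filter.1 he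
    by_cases hvx : v = x
    · exact mem_union_left _ (hvx ▸ hx)
    · have h3 : e = s(x, v) := ((Sym2.mem_and_mem_iff (Ne.symm hvx)).1 ⟨hxe, hve⟩)
      refine mem_union_right _ (mem_filter.2 ⟨mem_cov'.2 ⟨e, heQ, hve⟩, ?_⟩)
      exact hedge x v (h3 ▸ heQ) (mem_filter.1 hx).2
  have h3 : (cov F).card ≤ X.card + Y.card := (card_le_card h2).trans (card_union_le _ _)
  have h4 : ∑ v ∈ cov Q, (if dE Q v ≤ t then dE Q v - m else 0) = ∑ x ∈ X, (dE Q x - m) := by
    rw [hX, sum_filter]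
  have h5 : ∑ x ∈ X, (dE Q x - m) + m * X.card = ∑ x ∈ X, dE Q x := by
    rw [mul_comm, ← smul_eq_mul, ← sum_const, ← sum_add_distrib]
    refine sum_congr rfl fun x hx => ?_
    have := hm x (mem_filter.1 hx).1
    omega
  have h6 : ∑ v ∈ cov Q, (if s ≤ dE Q v then 1 else 0) = Y.card := by
    rw [hY, card_filter]
  rw [h4, h6]
  have h7 : F.card ≤ m * (X.card + Y.card) := hF.trans (Nat.mul_le_mul_left _ h3)
  rw [Nat.mul_add] at h7
  omega

/-- a set of edges with fewer than `3 n` edges, whose bipartite subsets have at most `2 n` edges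
(`n` is the number of covered vertices), has a reducible configuration if `Δ ≥ 11` -/
theorem red_planar {Δ : ℕ} (hΔ : 11 ≤ Δ) (Q : Finset (Sym2 V)) (hdiag : ∀ e ∈ Q, ¬ e.IsDiag)
    (h6 : Q.card < 3 * (cov Q).card)
    (h4 : ∀ F ⊆ Q, ∀ X : Finset V, (∀ e ∈ F, ∃ x ∈ X, ∃ y, y ∉ X ∧ e = s(x, y)) →
      F.card ≤ 2 * (cov F).card) : Red Δ 3 Q := by
  classical
  by_contra hcon
  unfold Red at hcon
  simp only [not_or] at hcon
  obtain ⟨hc1, hc2, hc3⟩ := hcon
  push Not at hc1 hc2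
  have hlow : ∀ v ∈ cov Q, 3 ≤ dE Q v := by
    intro v hv
    have := hc1 v (mem_cov.1 hv)
    omega
  have hedge : ∀ x y, s(x, y) ∈ Q → dE Q x ≤ 5 → Δ + 1 ≤ dE Q x + dE Q y := by
    intro x y hxy hx
    by_contra hlt
    have := hc2 x y hxy (by omega)
    omega
  have hcx : ∀ {x y : V}, s(x, y) ∈ Q → 3 ≤ dE Q x := fun {x y} h =>
    hlow x (mem_cov'.2 ⟨_, h, Sym2.mem_mk_left _ _⟩)
  -- the bipartite subgraphs
  have hbip : ∀ t ≤ 5, ∀ e ∈ Q.filter (fun e => ∃ x ∈ (cov Q).filter (fun v => dE Q v ≤ t), x ∈ e),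
      ∃ x ∈ (cov Q).filter (fun v => dE Q v ≤ t), ∃ y,
        y ∉ (cov Q).filter (fun v => dE Q v ≤ t) ∧ e = s(x, y) := by
    intro t ht e he
    obtain ⟨heQ, x, hx, hxe⟩ := mem_filter.1 he
    obtain ⟨y, rfl⟩ := hxe
    refine ⟨x, hx, y, fun hy => ?_, rfl⟩
    have h1 := (mem_filter.1 hx).2
    have h2 := (mem_filter.1 hy).2
    have h3 := hedge x y heQ (by omega)
    omega
  have i5 := count Q hdiag 5 7 2 (by omega) (fun v hv => by have := hlow v hv; omega)
    (fun x y hxy hx => by have := hedge x y hxy hx; omega)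
    (h4 _ (filter_subset _ _) _ (hbip 5 le_rfl))
  have i4 := count Q hdiag 4 8 2 (by omega) (fun v hv => by have := hlow v hv; omega)
    (fun x y hxy hx => by have := hedge x y hxy (by omega); omega)
    (h4 _ (filter_subset _ _) _ (hbip 4 (by omega)))
  have i3 := count Q hdiag 3 9 1 (by omega) (fun v hv => by have := hlow v hv; omega)
    (fun x y hxy hx => by have := hedge x y hxy (by omega); omega) (by
      rw [one_mul]
      rcases leaf _ (Q.filter (fun e => ∃ x ∈ (cov Q).filter (fun v => dE Q v ≤ 3), x ∈ e)) rfl with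
        ⟨B, hB, hne, h2⟩ | h
      · exfalso
        apply hc3
        refine ⟨B, hB.trans (filter_subset _ _), hne, fun e he => ?_⟩
        obtain ⟨heQ, x, hx, hxe⟩ := mem_filter.1 (hB he)
        obtain ⟨y, rfl⟩ := hxe
        have h3 := (mem_filter.1 hx).2
        have h4 := hcx heQ
        have h5 := hedge x y heQ (by omega)
        have h6 := h2 _ he x (Sym2.mem_mk_left _ _)
        have h7 := h2 _ he y (Sym2.mem_mk_right _ _)
        exact ⟨x, y, rfl, by omega, by omega, by omega, by omega⟩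
      · exact h)
  have hsum := sum_dE Q hdiag
  have hpt : ∑ v ∈ cov Q, (18 + (3 * (if 9 ≤ dE Q v then 1 else 0) +
      (4 * (if 8 ≤ dE Q v then 1 else 0) + 2 * (if 7 ≤ dE Q v then 1 else 0)))) ≤
      ∑ v ∈ cov Q, (3 * dE Q v + (3 * (if dE Q v ≤ 3 then dE Q v - 1 else 0) +
        (2 * (if dE Q v ≤ 4 then dE Q v - 2 else 0) + (if dE Q v ≤ 5 then dE Q v - 2 else 0)))) := by
    refine sum_le_sum fun v hv => ?_
    have := hlow v hv
    split_ifs <;> omega
  simp only [sum_add_distrib, ← mul_sum, sum_const, smul_eq_mul] at hpt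
  rw [hsum] at hpt
  omega

/-- sums of functions which differ by one at one place -/
theorem sum_le_one {S : Finset V} {f g : V → ℕ} {x : V} (hx : x ∈ S)
    (h1 : ∀ z ∈ S, z ≠ x → f z ≤ g z) (h2 : f x ≤ g x + 1) :
    ∑ z ∈ S, f z ≤ ∑ z ∈ S, g z + 1 := by
  rw [← add_sum_erase S f hx, ← add_sum_erase S g hx]
  have h3 : ∑ z ∈ S.erase x, f z ≤ ∑ z ∈ S.erase x, g z :=
    sum_le_sum fun z hz => h1 z (mem_of_mem_erase hz) (ne_of_mem_erase hz)
  omega

theorem sum_one_le {S : Finset V} {f g : V → ℕ} {y : V} (hy : y ∈ S)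
    (h1 : ∀ z ∈ S, f z ≤ g z) (h2 : f y + 1 ≤ g y) :
    ∑ z ∈ S, f z + 1 ≤ ∑ z ∈ S, g z := by
  rw [← add_sum_erase S f hy, ← add_sum_erase S g hy]
  have h3 : ∑ z ∈ S.erase y, f z ≤ ∑ z ∈ S.erase y, g z :=
    sum_le_sum fun z hz => h1 z (mem_of_mem_erase hz)
  omega

/-- removing edges between vertices `X` of small degree and other vertices `Y` -/
theorem kill (Q : Finset (Sym2 V)) (X Y : Finset V) (hXY : Disjoint X Y) (t : ℕ) (ht : 2 ≤ t)
    (hX2 : ∀ x ∈ X, 2 ≤ dE Q x) (n : ℕ) :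
    ∀ (B : Finset (Sym2 V)) (X' : Finset V), B.card = n → X' ⊆ X →
      (∀ e ∈ B, ∃ x ∈ X', ∃ y ∈ Y, e = s(x, y)) → (∀ x ∈ X', dE Q x ≤ dE B x + 1) →
      (∃ B' ⊆ B, B'.Nonempty ∧ ∀ e ∈ B', ∃ x ∈ X, ∃ y ∈ Y, e = s(x, y) ∧
        dE Q x ≤ dE B' x + 1 ∧ t ≤ dE B' y + 1) ∨
      ∑ x ∈ X', (2 + dE B x - dE Q x) ≤ ∑ y ∈ Y, min (dE B y) (t - 2) := by
  classical
  induction n using Nat.strong_induction_on with
  | _ n ih =>
    intro B X' hn hX' hB hfull
    rcases B.eq_empty_or_nonempty with rfl | hne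
    · right
      have hX0 : X' = ∅ := by
        rw [eq_empty_iff_forall_notMem]
        intro x hx
        have h1 := hfull x hx
        have h2 := hX2 x (hX' hx)
        have h3 : dE (∅ : Finset (Sym2 V)) x = 0 := by simp [dE]
        omega
      rw [hX0, sum_empty]
      exact Nat.zero_le _
    by_cases hgood : ∀ e ∈ B, ∃ x ∈ X', ∃ y ∈ Y, e = s(x, y) ∧ t ≤ dE B y + 1
    · left
      refine ⟨B, Subset.refl _, hne, fun e he => ?_⟩
      obtain ⟨x, hx, y, hy, hexy, hty⟩ := hgood e he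
      exact ⟨x, hX' hx, y, hy, hexy, hfull x hx, hty⟩
    push Not at hgood
    obtain ⟨e, he, hbad⟩ := hgood
    obtain ⟨x, hx, y, hy, hexy⟩ := hB e he
    have hlt := hbad x hx y hy hexy
    have hxe : x ∈ e := by rw [hexy]; exact Sym2.mem_mk_left _ _
    have hye : y ∈ e := by rw [hexy]; exact Sym2.mem_mk_right _ _
    by_cases hlost : dE Q x ≤ dE B x
    · -- no edge at `x` was removed before
      have hce := card_erase_add_one he
      have h0 : ∀ z ∈ X', z ≠ x → dE (B.erase e) z = dE B z := by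
        intro z hz hzx
        have h1 : z ∉ e := by
          rw [hexy, Sym2.mem_iff]
          rintro (h | h)
          · exact hzx h
          · exact disjoint_left.1 hXY (hX' hz) (h ▸ hy)
        conv_rhs => rw [← insert_erase he]
        exact (dE_insert_ne _ _ _ h1).symm
      have hx1 : dE B x ≤ dE (B.erase e) x + 1 := by
        conv_lhs => rw [← insert_erase he]
        exact dE_insert_le _ _ _
      have hy1 : dE (B.erase e) y + 1 ≤ dE B y :=
        dE_lt (erase_subset _ _) he (notMem_erase _ _) hye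
      rcases ih (B.erase e).card (by omega) (B.erase e) X' rfl hX'
        (fun f hf => hB f (mem_of_mem_erase hf)) (fun z hz => by
          by_cases hzx : z = x
          · rw [hzx]
            omega
          · rw [h0 z hz hzx]
            exact hfull z hz) with ⟨B', hB', h1⟩ | h1
      · exact Or.inl ⟨B', hB'.trans (erase_subset _ _), h1⟩
      · right
        have h2 : ∑ z ∈ X', (2 + dE B z - dE Q z) ≤
            ∑ z ∈ X', (2 + dE (B.erase e) z - dE Q z) + 1 := by
          refine sum_le_one hx (fun z hz hzx => ?_) (by omega)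
          rw [h0 z hz hzx]
        have h3 : ∑ z ∈ Y, min (dE (B.erase e) z) (t - 2) + 1 ≤ ∑ z ∈ Y, min (dE B z) (t - 2) := by
          refine sum_one_le hy (fun z _ => ?_) ?_
          · exact min_le_min (dE_mono (erase_subset _ _) z) le_rfl
          · rw [min_eq_left (by omega), min_eq_left (by omega)]
            exact hy1
        omega
    · -- the second edge at `x` is removed
      set B1 := B.filter (fun f => x ∉ f) with hB1
      have hB1s : B1 ⊆ B := filter_subset _ _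
      have he1 : e ∉ B1 := fun h => (mem_filter.1 h).2 hxe
      have hlt1 : B1.card < B.card := card_lt_card ⟨hB1s, fun h => he1 (h he)⟩
      have hends : ∀ f ∈ B, ∀ z ∈ X', z ≠ x → z ∈ f → x ∉ f := by
        intro f hf z hz hzx hzf hxf
        obtain ⟨a, ha, b, hb, hab⟩ := hB f hf
        rw [hab, Sym2.mem_iff] at hzf hxf
        rcases hzf with h | h
        · rcases hxf with h' | h'
          · exact hzx (h.trans h'.symm)
          · exact disjoint_left.1 hXY (hX' hx) (h' ▸ hb)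
        · exact disjoint_left.1 hXY (hX' hz) (h ▸ hb)
      have h0 : ∀ z ∈ X', z ≠ x → dE B1 z = dE B z := by
        intro z hz hzx
        unfold dE
        congr 1
        ext f
        rw [mem_filter, mem_filter, mem_filter]
        constructor
        · rintro ⟨⟨h1, _⟩, h2⟩
          exact ⟨h1, h2⟩
        · rintro ⟨h1, h2⟩
          exact ⟨⟨h1, hends f h1 z hz hzx h2⟩, h2⟩
      have hy1 : dE B1 y + 1 ≤ dE B y := dE_lt hB1s he he1 hye
      rcases ih B1.card (by omega) B1 (X'.erase x) rfl ((erase_subset _ _).trans hX')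
        (fun f hf => by
          obtain ⟨h1, h2⟩ := mem_filter.1 hf
          obtain ⟨a, ha, b, hb, hab⟩ := hB f h1
          refine ⟨a, mem_erase.2 ⟨fun h => h2 ?_, ha⟩, b, hb, hab⟩
          rw [hab, ← h]
          exact Sym2.mem_mk_left _ _) (fun z hz => by
          rw [h0 z (mem_of_mem_erase hz) (ne_of_mem_erase hz)]
          exact hfull z (mem_of_mem_erase hz)) with ⟨B', hB', h1⟩ | h1
      · exact Or.inl ⟨B', hB'.trans hB1s, h1⟩
      · right
        have h2 : ∑ z ∈ X', (2 + dE B z - dE Q z) ≤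
            ∑ z ∈ X'.erase x, (2 + dE B1 z - dE Q z) + 1 := by
          rw [← add_sum_erase X' _ hx]
          have h3 : ∑ z ∈ X'.erase x, (2 + dE B z - dE Q z) =
              ∑ z ∈ X'.erase x, (2 + dE B1 z - dE Q z) :=
            sum_congr rfl fun z hz => by rw [h0 z (mem_of_mem_erase hz) (ne_of_mem_erase hz)]
          rw [h3]
          have h4 := hfull x hx
          omega
        have h3 : ∑ z ∈ Y, min (dE B1 z) (t - 2) + 1 ≤ ∑ z ∈ Y, min (dE B z) (t - 2) := by
          refine sum_one_le hy (fun z _ => ?_) ?_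
          · exact min_le_min (dE_mono hB1s z) le_rfl
          · rw [min_eq_left (by omega), min_eq_left (by omega)]
            exact hy1
        omega

theorem sum_Ico (s j : ℕ) : 2 * ∑ t ∈ Ico (s + 3) (s + 3 + j), (t - 2) = j * (2 * s + 1 + j) := by
  induction j with
  | zero => simp
  | succ j ih =>
    rw [← Nat.add_assoc, sum_Ico_succ_top (by omega), Nat.mul_add, ih]
    have : s + 3 + j - 2 = s + 1 + j := by omega
    rw [this]
    ring

/-- the arithmetic of the discharging -/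
theorem arith {Δ m d : ℕ} (hm : 3 ≤ m) (h2m : 2 * m ≤ Δ) (h4 : m * m + 16 ≤ 4 * Δ + m)
    (hd3 : 3 ≤ d) (hdΔ : d ≤ Δ) :
    2 * m + ∑ t ∈ Ico 3 m, (if Δ + 1 ≤ d + t then t - 2 else 0) ≤
      2 * d + ∑ t ∈ Ico 3 m, (if d ≤ t then 2 else 0) := by
  by_cases hdm : d < m
  · have h1 : ∑ t ∈ Ico 3 m, (if Δ + 1 ≤ d + t then t - 2 else 0) = 0 := by
      refine sum_eq_zero fun t ht => ?_
      have := (mem_Ico.1 ht).2
      rw [if_neg (by omega)]
    have h2 : ∑ t ∈ Ico 3 m, (if d ≤ t then 2 else 0) = 2 * (m - d) := by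
      rw [← sum_filter, sum_const, smul_eq_mul, mul_comm]
      congr 1
      have : (Ico 3 m).filter (fun t => d ≤ t) = Ico d m := by
        ext t
        simp only [mem_filter, mem_Ico]
        omega
      rw [this, Nat.card_Ico]
    rw [h1, h2]
    omega
  · have h0 : 0 ≤ ∑ t ∈ Ico 3 m, (if d ≤ t then 2 else 0) := Nat.zero_le _
    by_cases hs : m + d ≤ Δ + 1
    · have h1 : ∑ t ∈ Ico 3 m, (if Δ + 1 ≤ d + t then t - 2 else 0) = 0 := by
        refine sum_eq_zero fun t ht => ?_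
        have := (mem_Ico.1 ht).2
        rw [if_neg (by omega)]
      rw [h1]
      omega
    · -- `s' = max 3 (Δ + 1 - d)`
      obtain ⟨s, hs1, hs2, hs3⟩ : ∃ s, s + 3 ≤ m ∧ Δ + 1 ≤ d + s + 3 ∧
          (Ico 3 m).filter (fun t => Δ + 1 ≤ d + t) ⊆ Ico (s + 3) m := by
        by_cases h3 : Δ + 1 ≤ d + 3
        · refine ⟨0, by omega, by omega, ?_⟩
          exact filter_subset _ _
        · refine ⟨Δ + 1 - d - 3, by omega, by omega, fun t ht => ?_⟩
          simp only [mem_filter, mem_Ico] at ht ⊢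
          omega
      obtain ⟨j, rfl⟩ : ∃ j, m = s + 3 + j := ⟨m - (s + 3), by omega⟩
      have h1 : ∑ t ∈ Ico 3 (s + 3 + j), (if Δ + 1 ≤ d + t then t - 2 else 0) ≤
          ∑ t ∈ Ico (s + 3) (s + 3 + j), (t - 2) := by
        rw [← sum_filter]
        exact sum_le_sum_of_subset hs3
      have h2 := sum_Ico s j
      have h5 : 4 * (s + 3 + j) + j * (2 * s + 1 + j) ≤ 4 * d := by
        have h6 : 4 * (Δ + 1) ≤ 4 * (d + s + 3) := by omega
        have h7 : (s + 3 + j) * (s + 3 + j) + 16 ≤ 4 * Δ + (s + 3 + j) := h4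
        have h8 : 3 * s ≤ s * s + 2 := by
          rcases Nat.lt_or_ge s 2 with h | h
          · interval_cases s <;> omega
          · nlinarith
        nlinarith
      omega

/-- counting the edges at the vertices of degree at most `t` by means of bipartite subgraphs -/
theorem count2 {Δ m : ℕ} (Q : Finset (Sym2 V)) (t : ℕ) (ht3 : 3 ≤ t) (htm : t < m)
    (h2m : 2 * m ≤ Δ) (hlow : ∀ v ∈ cov Q, 3 ≤ dE Q v)
    (hedge : ∀ x y, s(x, y) ∈ Q → dE Q x < m → Δ + 1 ≤ dE Q x + dE Q y)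
    (hB : ¬ ∃ B ⊆ Q, B.Nonempty ∧ ∀ e ∈ B, ∃ x y, e = s(x, y) ∧ dE Q x ≤ m - 1 ∧ m - 1 < dE Q y ∧
      dE Q x ≤ dE B x + 1 ∧ dE Q x ≤ dE B y + 1) :
    ∑ v ∈ cov Q, (if dE Q v ≤ t then 2 else 0) ≤
      ∑ v ∈ cov Q, (if Δ + 1 ≤ dE Q v + t then t - 2 else 0) := by
  classical
  set X := (cov Q).filter (fun v => dE Q v ≤ t) with hX
  set Y := (cov Q).filter (fun v => Δ + 1 ≤ dE Q v + t) with hY
  set F := Q.filter (fun e => ∃ x ∈ X, x ∈ e) with hF
  have hXY : Disjoint X Y := by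
    rw [disjoint_left]
    intro v hv hv'
    have h1 := (mem_filter.1 hv).2
    have h2 := (mem_filter.1 hv').2
    omega
  have hFx : ∀ x ∈ X, dE F x = dE Q x := by
    intro x hx
    unfold dE
    congr 1
    ext e
    rw [mem_filter, mem_filter, mem_filter]
    constructor
    · rintro ⟨⟨h1, _⟩, h2⟩
      exact ⟨h1, h2⟩
    · rintro ⟨h1, h2⟩
      exact ⟨⟨h1, x, hx, h2⟩, h2⟩
  rcases kill Q X Y hXY t (by omega) (fun x hx => by
      have := hlow x (mem_filter.1 hx).1
      omega) F.card F X rfl (Subset.refl _) (fun e he => by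
        obtain ⟨heQ, x, hx, hxe⟩ := mem_filter.1 he
        obtain ⟨y, rfl⟩ := hxe
        refine ⟨x, hx, y, mem_filter.2 ⟨mem_cov'.2 ⟨_, heQ, Sym2.mem_mk_right _ _⟩, ?_⟩, rfl⟩
        have h1 := (mem_filter.1 hx).2
        have h2 := hedge x y heQ (by omega)
        omega) (fun x hx => by rw [hFx x hx]; omega) with ⟨B, hBF, hne, h1⟩ | h1
  · exfalso
    refine hB ⟨B, hBF.trans (filter_subset _ _), hne, fun e he => ?_⟩
    obtain ⟨x, hx, y, hy, hexy, h2, h3⟩ := h1 e he
    have h4 := (mem_filter.1 hx).2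
    have h5 := (mem_filter.1 hy).2
    exact ⟨x, y, hexy, by omega, by omega, h2, by omega⟩
  · have h2 : ∑ v ∈ cov Q, (if dE Q v ≤ t then 2 else 0) = ∑ x ∈ X, (2 + dE F x - dE Q x) := by
      rw [hX, ← sum_filter]
      refine sum_congr rfl fun x hx => ?_
      rw [hFx x hx]
      omega
    have h3 : ∑ v ∈ cov Q, (if Δ + 1 ≤ dE Q v + t then t - 2 else 0) = ∑ y ∈ Y, (t - 2) := by
      rw [hY, sum_filter]
    rw [h2, h3]
    exact h1.trans (sum_le_sum fun y _ => min_le_right _ _)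

/-- a set of edges with average degree less than `m` has a reducible configuration if `Δ ≥ 2 m` and
`4 Δ ≥ m ^ 2 - m + 16` -/
theorem red_mad {Δ m : ℕ} (hm : 3 ≤ m) (h2m : 2 * m ≤ Δ) (h4 : m * m + 16 ≤ 4 * Δ + m)
    (Q : Finset (Sym2 V)) (hdiag : ∀ e ∈ Q, ¬ e.IsDiag) (hdeg : ∀ v, dE Q v ≤ Δ)
    (hs : 2 * Q.card < m * (cov Q).card) : Red Δ (m - 1) Q := by
  classical
  by_contra hcon
  unfold Red at hcon
  simp only [not_or] at hcon
  obtain ⟨hc1, hc2, hc3⟩ := hcon
  push Not at hc1 hc2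
  have hlow : ∀ v ∈ cov Q, 3 ≤ dE Q v := by
    intro v hv
    have := hc1 v (mem_cov.1 hv)
    omega
  have hedge : ∀ x y, s(x, y) ∈ Q → dE Q x < m → Δ + 1 ≤ dE Q x + dE Q y := by
    intro x y hxy hx
    by_contra hlt
    have := hc2 x y hxy (by omega) (by omega)
    omega
  have hc := fun t (ht : t ∈ Ico 3 m) =>
    count2 Q t (mem_Ico.1 ht).1 (mem_Ico.1 ht).2 h2m hlow hedge hc3
  have h1 := sum_le_sum hc
  rw [sum_comm, sum_comm (s := Ico 3 m) (t := cov Q)] at h1
  have h2 : ∑ v ∈ cov Q, (2 * m + ∑ t ∈ Ico 3 m, (if Δ + 1 ≤ dE Q v + t then t - 2 else 0)) ≤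
      ∑ v ∈ cov Q, (2 * dE Q v + ∑ t ∈ Ico 3 m, (if dE Q v ≤ t then 2 else 0)) :=
    sum_le_sum fun v hv => arith hm h2m h4 (hlow v hv) (hdeg v)
  rw [sum_add_distrib, sum_add_distrib, sum_const, ← mul_sum, sum_dE Q hdiag, smul_eq_mul] at h2
  have h3 : (cov Q).card * (2 * m) = 2 * (m * (cov Q).card) := by ring
  omega

end Pool.Agent.N410.TE
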