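import Mathlib

/-!
# Greedy steps for total colourings which extend a precoloured distance-3 matching
-/

set_option autoImplicit false
set_option linter.unusedSectionVars false

namespace Pool.Agent.N410.TE

open Finset

variable {V : Type} [Fintype V] [DecidableEq V]

/-- the number of the edges of `E` at `v` -/
def dE (E : Finset (Sym2 V)) (v : V) : ℕ := (E.filter (fun e => v ∈ e)).card

theorem dE_mono {E E' : Finset (Sym2 V)} (h : E ⊆ E') (v : V) : dE E v ≤ dE E' v :=
  card_le_card (filter_subset_filter _ h)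

theorem dE_insert_le (E : Finset (Sym2 V)) (e : Sym2 V) (v : V) : dE (insert e E) v ≤ dE E v + 1 := by
  unfold dE
  rw [filter_insert]
  split_ifs
  · exact card_insert_le _ _
  · exact Nat.le_succ _

theorem dE_insert_ne (E : Finset (Sym2 V)) (e : Sym2 V) (v : V) (h : v ∉ e) :
    dE (insert e E) v = dE E v := by
  unfold dE
  rw [filter_insert, if_neg h]

theorem dE_lt {E E' : Finset (Sym2 V)} (h : E ⊆ E') {e : Sym2 V} (he : e ∈ E') (he' : e ∉ E) {v : V}
    (hv : v ∈ e) : dE E v + 1 ≤ dE E' v := by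
  unfold dE
  rw [← Nat.succ_eq_add_one, Nat.succ_le_iff]
  refine card_lt_card ⟨filter_subset_filter _ h, fun h1 => he' ?_⟩
  exact (mem_filter.1 (h1 (mem_filter.2 ⟨he, hv⟩))).1

theorem dE_union_le (E E' : Finset (Sym2 V)) (v : V) : dE (E ∪ E') v ≤ dE E v + dE E' v := by
  unfold dE
  rw [filter_union]
  exact card_union_le _ _

/-- partial total colourings: the edges in `E` and the vertices in `S` are coloured; the colours
outside `H` are from the lists `L`, `M` -/
structure Good {α : Type} (L : V → Finset α) (M : Sym2 V → Finset α) (G : SimpleGraph V)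
    (hv : Finset V) (EH : Finset (Sym2 V)) (c0 : V → α)
    (g0 : Sym2 V → α) (E : Finset (Sym2 V)) (S : Finset V) (c : V → α)
    (g : Sym2 V → α) : Prop where
  col : ∀ u v, s(u, v) ∈ E → u ∈ S → v ∈ S → c u ≠ c v
  nbr : ∀ y ∈ S, ∀ u ∈ hv, G.Adj y u → c y ≠ c u
  edg : ∀ e ∈ E, ∀ f ∈ E, e ≠ f → ∀ v, v ∈ e → v ∈ f → g e ≠ g f
  inc : ∀ e ∈ E, ∀ v ∈ e, v ∈ S → g e ≠ c v
  pc : ∀ v ∈ hv, c v = c0 v
  pe : ∀ e ∈ EH, g e = g0 e
  lc : ∀ v ∈ S, v ∉ hv → c v ∈ L v
  ld : ∀ e ∈ E, e ∉ EH → g e ∈ M e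

variable {α : Type} [DecidableEq α] {L : V → Finset α} {M : Sym2 V → Finset α}
  {k : ℕ} {G : SimpleGraph V} {hv : Finset V} {EH : Finset (Sym2 V)} {c0 : V → α}
  {g0 : Sym2 V → α}

theorem Good.mono {E E' : Finset (Sym2 V)} {S S' : Finset V} {c : V → α} {g : Sym2 V → α}
    (h : Good L M G hv EH c0 g0 E S c g) (hE : E' ⊆ E) (hS : S' ⊆ S) :
    Good L M G hv EH c0 g0 E' S' c g where
  col u v he hu hv' := h.col u v (hE he) (hS hu) (hS hv')
  nbr y hy u hu hyu := h.nbr y (hS hy) u hu hyu
  edg e he f hf hne v hv1 hv2 := h.edg e (hE he) f (hE hf) hne v hv1 hv2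
  inc e he v hve hvS := h.inc e (hE he) v hve (hS hvS)
  pc := h.pc
  pe := h.pe
  lc v hv1 hv2 := h.lc v (hS hv1) hv2
  ld e he1 he2 := h.ld e (hE he1) he2

/-- colour one more edge -/
theorem add_edge {E : Finset (Sym2 V)} {S : Finset V} {c : V → α} {g : Sym2 V → α}
    (h : Good L M G hv EH c0 g0 E S c g) {x y : V} (hM : k ≤ (M s(x, y)).card) (hE : s(x, y) ∉ E)
    (hEH : s(x, y) ∉ EH) (hne : x ∈ S → y ∈ S → c x ≠ c y)
    (hcard : dE E x + dE E y + (if x ∈ S then 1 else 0) + (if y ∈ S then 1 else 0) < k) :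
    ∃ g', Good L M G hv EH c0 g0 (insert s(x, y) E) S c g' := by
  set B : Finset α := (E.filter (fun e => x ∈ e)).image g ∪ (E.filter (fun e => y ∈ e)).image g ∪
    (if x ∈ S then {c x} else ∅) ∪ (if y ∈ S then {c y} else ∅) with hB
  have hBc : B.card < (M s(x, y)).card := by
    refine lt_of_lt_of_le (lt_of_le_of_lt ?_ hcard) hM
    refine (card_union_le _ _).trans (Nat.add_le_add ((card_union_le _ _).trans (Nat.add_le_add
      ((card_union_le _ _).trans (Nat.add_le_add card_image_le card_image_le)) ?_)) ?_)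
    · split_ifs <;> simp
    · split_ifs <;> simp
  obtain ⟨t, htM, ht⟩ := exists_mem_notMem_of_card_lt_card hBc
  rw [hB, mem_union, mem_union, mem_union] at ht
  push Not at ht
  obtain ⟨⟨⟨ht1, ht2⟩, ht3⟩, ht4⟩ := ht
  have hu1 : ∀ e ∈ E, Function.update g s(x, y) t e = g e := fun e he =>
    Function.update_of_ne (by rintro rfl; exact hE he) _ _
  have hx1 : ∀ e ∈ E, x ∈ e → t ≠ g e := fun e he hxe h1 =>
    ht1 (mem_image.2 ⟨e, mem_filter.2 ⟨he, hxe⟩, h1.symm⟩)
  have hy1 : ∀ e ∈ E, y ∈ e → t ≠ g e := fun e he hye h1 =>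
    ht2 (mem_image.2 ⟨e, mem_filter.2 ⟨he, hye⟩, h1.symm⟩)
  have hv1 : ∀ e ∈ E, ∀ v ∈ s(x, y), v ∈ e → t ≠ g e := by
    intro e he v hv hve
    rcases Sym2.mem_iff.1 hv with rfl | rfl
    · exact hx1 e he hve
    · exact hy1 e he hve
  have hvS : ∀ v ∈ s(x, y), v ∈ S → t ≠ c v := by
    intro v hv hvS
    rcases Sym2.mem_iff.1 hv with rfl | rfl
    · rw [if_pos hvS, mem_singleton] at ht3
      exact ht3
    · rw [if_pos hvS, mem_singleton] at ht4
      exact ht4
  refine ⟨Function.update g s(x, y) t, ?_, h.nbr, ?_, ?_, h.pc, ?_, h.lc, ?_⟩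
  · intro u v he hu hv'
    rcases mem_insert.1 he with he | he
    · rcases Sym2.eq_iff.1 he with ⟨rfl, rfl⟩ | ⟨rfl, rfl⟩
      · exact hne hu hv'
      · exact (hne hv' hu).symm
    · exact h.col u v he hu hv'
  · intro e he f hf hef v hve hvf
    rcases mem_insert.1 he with rfl | he <;> rcases mem_insert.1 hf with rfl | hf
    · exact absurd rfl hef
    · rw [Function.update_self, hu1 f hf]
      exact hv1 f hf v hve hvf
    · rw [Function.update_self, hu1 e he]
      exact (hv1 e he v hvf hve).symm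
    · rw [hu1 e he, hu1 f hf]
      exact h.edg e he f hf hef v hve hvf
  · intro e he v hve hvs
    rcases mem_insert.1 he with rfl | he
    · rw [Function.update_self]
      exact hvS v hve hvs
    · rw [hu1 e he]
      exact h.inc e he v hve hvs
  · intro e he
    have hne1 : e ≠ s(x, y) := by
      rintro rfl
      exact hEH he
    rw [Function.update_of_ne hne1]
    exact h.pe e he
  · intro e he heH
    rcases mem_insert.1 he with rfl | he
    · rw [Function.update_self]
      exact htM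
    · rw [hu1 e he]
      exact h.ld e he heH

/-- colour one more vertex -/
theorem add_vertex {E : Finset (Sym2 V)} {S : Finset V} {c : V → α} {g : Sym2 V → α}
    (h : Good L M G hv EH c0 g0 E S c g) (hloop : ∀ v, s(v, v) ∉ E) {x : V} (hx : x ∉ hv)
    (hL : k ≤ (L x).card)
    (N : Finset V) (hN : ∀ u ∈ hv, G.Adj x u → u ∈ N) (hN2 : N.card ≤ 2)
    (hcard : 2 * dE E x + 2 < k) :
    ∃ c', Good L M G hv EH c0 g0 E (insert x S) c' g := by
  set K : Finset V := univ.filter (fun v => s(x, v) ∈ E) with hK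
  have hKc : K.card ≤ dE E x := by
    unfold dE
    refine card_le_card_of_injOn (fun v => s(x, v)) ?_ ?_
    · intro v hv1
      exact mem_filter.2 ⟨(mem_filter.1 (mem_coe.1 hv1)).2, Sym2.mem_mk_left _ _⟩
    · intro v _ w _ hvw
      exact Sym2.congr_right.1 hvw
  set B : Finset α := (E.filter (fun e => x ∈ e)).image g ∪ K.image c ∪ N.image c with hB
  have hBc : B.card < (L x).card := by
    refine lt_of_lt_of_le (lt_of_le_of_lt ?_ hcard) hL
    have h1 : B.card ≤ dE E x + K.card + N.card :=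
      (card_union_le _ _).trans (Nat.add_le_add ((card_union_le _ _).trans
        (Nat.add_le_add card_image_le card_image_le)) card_image_le)
    omega
  obtain ⟨t, htL, ht⟩ := exists_mem_notMem_of_card_lt_card hBc
  rw [hB, mem_union, mem_union] at ht
  push Not at ht
  obtain ⟨⟨ht1, ht2⟩, ht3⟩ := ht
  have hK1 : ∀ v, s(x, v) ∈ E → t ≠ c v := fun v hv1 h1 =>
    ht2 (mem_image.2 ⟨v, mem_filter.2 ⟨mem_univ _, hv1⟩, h1.symm⟩)
  have hN1 : ∀ u ∈ hv, G.Adj x u → t ≠ c u := fun u hu hxu h1 =>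
    ht3 (mem_image.2 ⟨u, hN u hu hxu, h1.symm⟩)
  have hup : ∀ v, v ≠ x → Function.update c x t v = c v := fun v hne => Function.update_of_ne hne _ _
  refine ⟨Function.update c x t, ?_, ?_, h.edg, ?_, ?_, h.pe, ?_, h.ld⟩
  · intro u v he hu hv1
    by_cases hux : u = x
    · subst hux
      have hvu : v ≠ u := fun h1 => hloop u (h1 ▸ he)
      rw [Function.update_self, hup v hvu]
      exact hK1 v he
    · by_cases hvx : v = x
      · subst hvx
        rw [Function.update_self, hup u hux]
        exact (hK1 u (by rw [Sym2.eq_swap]; exact he)).symm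
      · rw [hup u hux, hup v hvx]
        exact h.col u v he ((mem_insert.1 hu).resolve_left hux) ((mem_insert.1 hv1).resolve_left hvx)
  · intro y hy u hu hyu
    have hux : u ≠ x := fun h1 => hx (h1 ▸ hu)
    rw [hup u hux]
    by_cases hyx : y = x
    · subst hyx
      rw [Function.update_self]
      exact hN1 u hu hyu
    · rw [hup y hyx]
      exact h.nbr y ((mem_insert.1 hy).resolve_left hyx) u hu hyu
  · intro e he v hve hvs
    by_cases hvx : v = x
    · subst hvx
      rw [Function.update_self]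
      intro h1
      exact ht1 (mem_image.2 ⟨e, mem_filter.2 ⟨he, hve⟩, h1⟩)
    · rw [hup v hvx]
      exact h.inc e he v hve ((mem_insert.1 hvs).resolve_left hvx)
  · intro v hv1
    rw [hup v (fun h1 => hx (h1 ▸ hv1))]
    exact h.pc v hv1
  · intro v hv1 hv2
    by_cases hvx : v = x
    · subst hvx
      rw [Function.update_self]
      exact htL
    · rw [hup v hvx]
      exact h.lc v ((mem_insert.1 hv1).resolve_left hvx) hv2

end Pool.Agent.N410.TE
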