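import Pool.Agent.N410.TE.Steps

/-!
# Total colourings which extend a precoloured distance-3 matching: graphs with light edges
-/

set_option autoImplicit false
set_option linter.unusedSectionVars false

namespace Pool.Agent.N410.TE

open Finset

variable {V : Type} [Fintype V] [DecidableEq V] {G H : SimpleGraph V} {hv : Finset V}
  {EG EH : Finset (Sym2 V)} {Δ r : ℕ}

theorem inv_empty (E : Finset (Sym2 V)) : Inv H hv EH Δ r E ∅ where
  sub := empty_subset _
  two u hu := absurd hu (notMem_empty _)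
  pair u hu := absurd hu (notMem_empty _)
  one u hu := absurd hu (notMem_empty _)

/-- a maximal frozen set -/
theorem exists_maxInv (r : ℕ) (E : Finset (Sym2 V)) : ∃ Z, Inv H hv EH Δ r E Z ∧
    ∀ v, v ∉ Z → ¬ Inv H hv EH Δ r E (insert v Z) := by
  classical
  obtain ⟨Z, hZ, hmax⟩ := exists_max_image (hv.powerset.filter (fun Z => Inv H hv EH Δ r E Z)) card
    ⟨∅, mem_filter.2 ⟨mem_powerset.2 (empty_subset _), inv_empty E⟩⟩
  refine ⟨Z, (mem_filter.1 hZ).2, fun v hv' hI => ?_⟩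
  have h1 := hmax (insert v Z) (mem_filter.2 ⟨mem_powerset.2 hI.sub, hI⟩)
  rw [card_insert_of_notMem hv'] at h1
  omega

/-- the edges at `v` outside `H` are not frozen -/
theorem np_le (S : Setting G H hv EG EH Δ) {E : Finset (Sym2 V)} (hEG : E ⊆ EG) {Z : Finset V}
    (hZ : Z ⊆ hv) {v : V} (hv' : v ∈ hv) (hvZ : v ∉ Z) : np EH E v ≤ dE (nf E Z \ EH) v := by
  unfold np dE
  refine card_le_card fun e he => ?_
  obtain ⟨he1, he2⟩ := mem_filter.1 he
  obtain ⟨he3, he4⟩ := mem_sdiff.1 he1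
  refine mem_filter.2 ⟨mem_sdiff.2 ⟨?_, he4⟩, he2⟩
  obtain ⟨a, rfl⟩ := he2
  refine mem_nf.2 ⟨he3, fun w hw => ?_⟩
  rcases Sym2.mem_iff.1 hw with rfl | rfl
  · exact hvZ
  · exact fun h => S.out hv' (hEG he3) he4 (hZ h)

/-- **Existence of a reducible configuration** -/
theorem steps (S : Setting G H hv EG EH Δ) (hΔ : 5 ≤ Δ)
    (hLE : ∀ Q ⊆ EG, Q.Nonempty → (∃ v, 1 ≤ dE Q v ∧ dE Q v ≤ 2) ∨
      ∃ x y, s(x, y) ∈ Q ∧ dE Q x + dE Q y ≤ Δ ∧ 2 * dE Q x < Δ)
    {E : Finset (Sym2 V)} (hEG : E ⊆ EG) (hEH : EH ⊆ E) (hne : E ≠ EH) :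
    ∃ Z, Inv H hv EH Δ 2 E Z ∧
      ((∃ y, y ∉ hv ∧ 1 ≤ dE E y ∧ dE (nf E Z) y ≤ 2) ∨
       (∃ x y, x ∉ hv ∧ y ∉ hv ∧ s(x, y) ∈ E ∧ 3 ≤ dE (nf E Z \ EH) x ∧
          dE (nf E Z \ EH) x + dE (nf E Z \ EH) y ≤ Δ ∧ 2 * dE (nf E Z \ EH) x < Δ) ∨
       (∃ x y, x ∈ hv ∧ x ∉ Z ∧ y ∉ hv ∧ s(x, y) ∈ E ∧ 3 ≤ dE (nf E Z \ EH) x ∧
          dE (nf E Z \ EH) x + dE (nf E Z \ EH) y ≤ Δ)) := by
  classical
  obtain ⟨Z, hZ, hmax⟩ := exists_maxInv (H := H) (hv := hv) (EH := EH) (Δ := Δ) 2 E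
  refine ⟨Z, hZ, ?_⟩
  set Q : Finset (Sym2 V) := if 6 ≤ Δ then nf E Z \ EH else nf E Z with hQ
  have hQnf : Q ⊆ nf E Z := by
    rw [hQ]
    split_ifs
    · exact sdiff_subset
    · exact Subset.refl _
  have hnfQ : nf E Z \ EH ⊆ Q := by
    rw [hQ]
    split_ifs
    · exact Subset.refl _
    · exact sdiff_subset
  have hnfE : nf E Z ⊆ E := filter_subset _ _
  -- outside `H` the degrees agree
  have hout : ∀ v, v ∉ hv → dE (nf E Z) v ≤ dE Q v := by
    intro v hv'
    refine le_trans ?_ (dE_mono hnfQ v)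
    unfold dE
    refine card_le_card fun e he => ?_
    obtain ⟨he1, he2⟩ := mem_filter.1 he
    exact mem_filter.2 ⟨mem_sdiff.2 ⟨he1, fun h => S.not_hv hv' h he2⟩, he2⟩
  have hpos : ∀ {v : V} {e : Sym2 V}, e ∈ E → v ∈ e → 1 ≤ dE E v := fun {v e} he hve =>
    card_pos.2 ⟨e, mem_filter.2 ⟨he, hve⟩⟩
  rcases Q.eq_empty_or_nonempty with hQ0 | hQne
  · -- all edges outside `H` are frozen
    left
    obtain ⟨e, heE, heEH⟩ : ∃ e ∈ E, e ∉ EH := by
      by_contra hcon
      push Not at hcon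
      exact hne (Subset.antisymm (fun e he => hcon e he) hEH)
    obtain ⟨y, hy, hye⟩ : ∃ y, y ∉ hv ∧ y ∈ e := by
      induction e using Sym2.ind with
      | _ a b =>
        by_cases ha : a ∈ hv
        · exact ⟨b, S.out ha (hEG heE) heEH, Sym2.mem_mk_right _ _⟩
        · exact ⟨a, ha, Sym2.mem_mk_left _ _⟩
    refine ⟨y, hy, hpos heE hye, ?_⟩
    have h1 := hout y hy
    have h2 : dE Q y = 0 := by
      rw [hQ0]
      rfl
    omega
  by_cases hlow : ∃ v, 1 ≤ dE Q v ∧ dE Q v ≤ 2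
  · left
    obtain ⟨v, hv1, hv2⟩ := hlow
    obtain ⟨e, he⟩ := card_pos.1 (show 0 < (Q.filter (fun e => v ∈ e)).card from hv1)
    obtain ⟨heQ, hve⟩ := mem_filter.1 he
    have heE := hnfE (hQnf heQ)
    have hvZ : v ∉ Z := (mem_nf.1 (hQnf heQ)).2 v hve
    by_cases hvh : v ∈ hv
    · -- freeze `v`
      exfalso
      have hnp : np EH E v ≤ dE (nf E Z \ EH) v := np_le S hEG hZ.sub hvh hvZ
      have hnp2 : np EH E v ≤ dE Q v := hnp.trans (dE_mono hnfQ v)
      apply hmax v hvZ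
      by_cases h6 : 6 ≤ Δ
      · exact
          { sub := insert_subset hvh hZ.sub
            two := fun u hu => by
              rcases mem_insert.1 hu with rfl | hu
              · exact hnp2.trans hv2
              · exact hZ.two u hu
            pair := fun u _ w _ _ => Or.inr (Or.inr h6)
            one := fun u _ w _ _ => Or.inr h6 }
      · obtain ⟨w, hvw⟩ := (S.memv v).1 hvh
        have hwh : w ∈ hv := (S.memv w).2 ⟨v, hvw.symm⟩
        have hQe : Q = nf E Z := by rw [hQ, if_neg h6]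
        -- if the partner is not frozen
        have hone : w ∉ Z → np EH E v ≤ 1 := by
          intro hwZ
          have h7 : s(v, w) ∈ nf E Z := mem_nf.2 ⟨hEH ((S.memH _).2 hvw), fun z hz => by
            rcases Sym2.mem_iff.1 hz with rfl | rfl
            · exact hvZ
            · exact hwZ⟩
          have h8 : dE (nf E Z \ EH) v + 1 ≤ dE (nf E Z) v :=
            dE_lt sdiff_subset h7 (fun h => (mem_sdiff.1 h).2 ((S.memH _).2 hvw))
              (Sym2.mem_mk_left _ _)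
          rw [hQe] at hv2
          omega
        refine
          { sub := insert_subset hvh hZ.sub
            two := fun u hu => by
              rcases mem_insert.1 hu with rfl | hu
              · exact hnp2.trans hv2
              · exact hZ.two u hu
            pair := fun u hu w' hw' huw => ?_
            one := fun u hu w' hw' huw => ?_ }
        · rcases mem_insert.1 hu with hu1 | hu1 <;> rcases mem_insert.1 hw' with hw1 | hw1
          · rw [hu1, hw1] at huw
            exact absurd huw (H.irrefl)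
          · -- `u = v`, partner `w'` frozen
            rw [hu1] at huw ⊢
            rcases hZ.one w' hw1 v hvZ huw.symm with h | h
            · exact Or.inr (Or.inl h)
            · exact Or.inr (Or.inr h)
          · rw [hw1] at huw
            rcases hZ.one u hu1 v hvZ huw with h | h
            · exact Or.inl h
            · exact Or.inr (Or.inr h)
          · exact hZ.pair u hu1 w' hw1 huw
        · rcases mem_insert.1 hu with rfl | hu
          · have e1 : w' = w := S.mat u w' w huw hvw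
            rw [e1] at hw'
            exact Or.inl (hone (fun h => hw' (mem_insert_of_mem h)))
          · exact hZ.one u hu w' (fun h => hw' (mem_insert_of_mem h)) huw
    · exact ⟨v, hvh, hpos heE hve, (hout v hvh).trans hv2⟩
  · right
    rcases hLE Q ((hQnf.trans hnfE).trans hEG) hQne with h | ⟨x, y, hxy, hsum, hlt⟩
    · exact absurd h hlow
    push Not at hlow
    have hx3 : 3 ≤ dE Q x := by
      have h1 := hlow x (card_pos.2 ⟨_, mem_filter.2 ⟨hxy, Sym2.mem_mk_left _ _⟩⟩)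
      omega
    have hy3 : 3 ≤ dE Q y := by
      have h1 := hlow y (card_pos.2 ⟨_, mem_filter.2 ⟨hxy, Sym2.mem_mk_right _ _⟩⟩)
      omega
    have h6 : 6 ≤ Δ := by omega
    have hQe : Q = nf E Z \ EH := by rw [hQ, if_pos h6]
    rw [hQe] at hxy hsum hlt hx3 hy3
    obtain ⟨hxy1, hxy2⟩ := mem_sdiff.1 hxy
    have hxyE := hnfE hxy1
    by_cases hx : x ∈ hv
    · right
      exact ⟨x, y, hx, (mem_nf.1 hxy1).2 x (Sym2.mem_mk_left _ _), S.out hx (hEG hxyE) hxy2, hxyE, hx3,
        hsum⟩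
    · by_cases hy : y ∈ hv
      · right
        refine ⟨y, x, hy, (mem_nf.1 hxy1).2 y (Sym2.mem_mk_right _ _), hx, ?_, hy3, by omega⟩
        rw [Sym2.eq_swap]
        exact hxyE
      · left
        exact ⟨x, y, hx, hy, hxyE, hx3, hsum, hlt⟩

variable {α : Type} [DecidableEq α] {L : V → Finset α} {M : Sym2 V → Finset α}
  {k : ℕ} {c0 : V → α} {g0 : Sym2 V → α}

/-- the base of the induction -/
theorem base (S : Setting G H hv EG EH Δ) (hk : k = Δ + 2) (hLs : ∀ v, v ∉ hv → k ≤ (L v).card)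
    (hc0 : ∀ u v, H.Adj u v → c0 u ≠ c0 v) (hg0 : ∀ u v, H.Adj u v → g0 s(u, v) ≠ c0 u)
    (hΔ : 1 ≤ Δ) : ∃ c g, Good L M G hv EH c0 g0 EH univ c g := by
  classical
  have hch : ∀ v, ∃ t : α, (v ∈ hv → t = c0 v) ∧ (∀ u ∈ hv, G.Adj v u → t ≠ c0 u) ∧ (v ∉ hv → t ∈ L v) := by
    intro v
    by_cases hvh : v ∈ hv
    · exact ⟨c0 v, fun _ => rfl, fun u hu hvu => hc0 v u (S.near1 v hvh u hu hvu),
        fun h => absurd hvh h⟩
    · set N := hv.filter (fun u => s(v, u) ∈ EG) with hN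
      have h1 : N.card ≤ 2 := S.fz_card (y := v) _ (filter_subset _ _)
        (fun u hu => (mem_filter.1 hu).2)
      have h2 : (N.image c0).card < (L v).card := by
        have h4 : (N.image c0).card ≤ N.card := card_image_le
        have h5 := hLs v hvh
        omega
      obtain ⟨t, htL, ht⟩ := exists_mem_notMem_of_card_lt_card h2
      refine ⟨t, fun h => absurd h hvh,
        fun u hu hvu h3 => ht (mem_image.2 ⟨u, ?_, h3.symm⟩), fun _ => htL⟩
      exact mem_filter.2 ⟨hu, (S.memG _).2 hvu⟩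
  choose c hc1 hc2 hc3 using hch
  have hvv : ∀ u v, s(u, v) ∈ EH → u ∈ hv ∧ v ∈ hv := fun u v h =>
    ⟨(S.memv u).2 ⟨v, S.hadj h⟩, (S.memv v).2 ⟨u, (S.hadj h).symm⟩⟩
  refine ⟨c, g0, ?_, ?_, ?_, ?_, fun v hv' => hc1 v hv', fun e _ => rfl,
    fun v _ hv2 => hc3 v hv2, fun e he he2 => absurd he he2⟩
  · intro u v he _ _
    obtain ⟨hu, hv'⟩ := hvv u v he
    rw [hc1 u hu, hc1 v hv']
    exact hc0 u v (S.hadj he)
  · intro y _ u hu hyu
    rw [hc1 u hu]
    exact hc2 y u hu hyu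
  · intro e he f hf hef v hve hvf
    exfalso
    have h1 := S.dE_EH v
    unfold dE at h1
    exact hef (card_le_one.1 h1 e (mem_filter.2 ⟨he, hve⟩) f (mem_filter.2 ⟨hf, hvf⟩))
  · intro e he v hve _
    obtain ⟨a, rfl⟩ := hve
    rw [hc1 v (hvv v a he).1]
    exact hg0 v a (S.hadj he)

/-- **Main induction** -/
theorem ext_all (S : Setting G H hv EG EH Δ) (hΔ : 5 ≤ Δ) (hk : k = Δ + 2)
    (hLs : ∀ v, v ∉ hv → k ≤ (L v).card) (hMs : ∀ e ∈ EG, e ∉ EH → k ≤ (M e).card)
    (hLE : ∀ Q ⊆ EG, Q.Nonempty → (∃ v, 1 ≤ dE Q v ∧ dE Q v ≤ 2) ∨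
      ∃ x y, s(x, y) ∈ Q ∧ dE Q x + dE Q y ≤ Δ ∧ 2 * dE Q x < Δ)
    (hc0 : ∀ u v, H.Adj u v → c0 u ≠ c0 v) (hg0 : ∀ u v, H.Adj u v → g0 s(u, v) ≠ c0 u) (n : ℕ) :
    ∀ E : Finset (Sym2 V), E.card = n → EH ⊆ E → E ⊆ EG →
      ∃ c g, Good L M G hv EH c0 g0 E univ c g := by
  classical
  induction n using Nat.strong_induction_on with
  | _ n ih =>
    intro E hn hEH hEG
    by_cases hE : E = EH
    · rw [hE]
      exact base S hk hLs hc0 hg0 (by omega)
    · obtain ⟨Z, hZ, hcase⟩ := steps S hΔ hLE hEG hEH hE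
      rcases hcase with ⟨y, hy, hy1, hy2⟩ | ⟨x, y, hx, hy, hxy, h3, hsum, hlt⟩ |
        ⟨x, y, hx, hxZ, hy, hxy, h3, hsum⟩
      · refine step1 S hLs hMs hΔ (Or.inl le_rfl) hk hEG hEH hZ hy hy2 ?_
        refine ih _ ?_ _ rfl ?_ ((filter_subset _ _).trans hEG)
        · rw [← hn]
          refine card_lt_card ⟨filter_subset _ _, fun h => ?_⟩
          obtain ⟨e, he⟩ := card_pos.1 (show 0 < (E.filter (fun e => y ∈ e)).card from hy1)
          obtain ⟨he1, he2⟩ := mem_filter.1 he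
          exact (mem_filter.1 (h he1)).2 he2
        · intro e he
          exact mem_filter.2 ⟨hEH he, S.not_hv hy he⟩
      · refine step2 S hLs hMs hk hEG hEH hZ hx hy hxy h3 hsum hlt (by omega) ?_
        refine ih _ ?_ _ rfl ?_ ((filter_subset _ _).trans hEG)
        · rw [← hn]
          exact card_lt_card ⟨filter_subset _ _, fun h => (mem_cutE.1 (h hxy)).2.1 rfl⟩
        · intro e he
          refine mem_cutE.2 ⟨hEH he, ?_, fun h => absurd h (S.not_hv hx he)⟩
          rintro rfl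
          exact S.not_hv hx he (Sym2.mem_mk_left _ _)
      · refine step3 S hMs hk hEG hEH hZ hx hxZ hy hxy h3 hsum ?_
        refine ih _ ?_ _ rfl ?_ ((filter_subset _ _).trans hEG)
        · rw [← hn]
          exact card_lt_card ⟨filter_subset _ _, fun h => (mem_cutE.1 (h hxy)).2.1 rfl⟩
        · intro e he
          refine mem_cutE.2 ⟨hEH he, ?_, fun h => absurd h (S.not_hv hy he)⟩
          rintro rfl
          exact S.not_hv hy he (Sym2.mem_mk_right _ _)

end Pool.Agent.N410.TE
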