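import Pool.Agent.N410.TE.Main
import Pool.Agent.N410.TE.Alt

/-!
# Total colourings which extend a precoloured distance-3 matching: light edges and bipartite
subgraphs
-/

set_option autoImplicit false
set_option linter.unusedSectionVars false

namespace Pool.Agent.N410.TE

open Finset

variable {V : Type} [Fintype V] [DecidableEq V] {G H : SimpleGraph V} {hv : Finset V}
  {EG EH : Finset (Sym2 V)} {Δ r : ℕ}

/-- the reducible configurations of a set of edges -/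
def Red (Δ r : ℕ) (Q : Finset (Sym2 V)) : Prop :=
  (∃ v, 1 ≤ dE Q v ∧ dE Q v ≤ 2) ∨
  (∃ x y, s(x, y) ∈ Q ∧ dE Q x + dE Q y ≤ Δ ∧ 2 * dE Q x < Δ ∧ dE Q x + r + 1 < Δ) ∨
  (∃ B ⊆ Q, B.Nonempty ∧ ∀ e ∈ B, ∃ x y, e = s(x, y) ∧ dE Q x ≤ r ∧ r < dE Q y ∧
    dE Q x ≤ dE B x + 1 ∧ dE Q x ≤ dE B y + 1)

/-- **Existence of a reducible configuration** -/
theorem steps3 (S : Setting G H hv EG EH Δ) (hr : 2 ≤ r) (hΔ : 2 * r + 2 ≤ Δ)
    (hLE : ∀ Q ⊆ EG, Q.Nonempty → Red Δ r Q)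
    {E : Finset (Sym2 V)} (hEG : E ⊆ EG) (hEH : EH ⊆ E) (hne : E ≠ EH) :
    ∃ Z, Inv H hv EH Δ r E Z ∧
      ((∃ y, y ∉ hv ∧ 1 ≤ dE E y ∧ dE (nf E Z) y ≤ 2) ∨
       (∃ x y, x ∉ hv ∧ y ∉ hv ∧ s(x, y) ∈ E ∧ 3 ≤ dE (nf E Z \ EH) x ∧
          dE (nf E Z \ EH) x + dE (nf E Z \ EH) y ≤ Δ ∧ 2 * dE (nf E Z \ EH) x < Δ ∧
          dE (nf E Z \ EH) x + r + 1 < Δ) ∨
       (∃ x y, x ∈ hv ∧ x ∉ Z ∧ y ∉ hv ∧ s(x, y) ∈ E ∧ r + 1 ≤ dE (nf E Z \ EH) x ∧
          dE (nf E Z \ EH) x + dE (nf E Z \ EH) y ≤ Δ) ∨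
       (∃ B ⊆ nf E Z \ EH, B.Nonempty ∧ ∀ e ∈ B, ∃ x y, e = s(x, y) ∧ x ∉ hv ∧
          dE (nf E Z \ EH) x ≤ r ∧ r < dE (nf E Z \ EH) y ∧
          dE (nf E Z \ EH) x ≤ dE B x + 1 ∧ dE (nf E Z \ EH) x ≤ dE B y + 1)) := by
  classical
  obtain ⟨Z, hZ, hmax⟩ := exists_maxInv (H := H) (hv := hv) (EH := EH) (Δ := Δ) r E
  refine ⟨Z, hZ, ?_⟩
  set Q : Finset (Sym2 V) := nf E Z \ EH with hQ
  have hQnf : Q ⊆ nf E Z := sdiff_subset
  have hnfE : nf E Z ⊆ E := filter_subset _ _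
  -- outside `H` the degrees agree
  have hout : ∀ v, v ∉ hv → dE (nf E Z) v ≤ dE Q v := by
    intro v hv'
    unfold dE
    refine card_le_card fun e he => ?_
    obtain ⟨he1, he2⟩ := mem_filter.1 he
    exact mem_filter.2 ⟨mem_sdiff.2 ⟨he1, fun h => S.not_hv hv' h he2⟩, he2⟩
  have hpos : ∀ {v : V} {e : Sym2 V}, e ∈ E → v ∈ e → 1 ≤ dE E v := fun {v e} he hve =>
    card_pos.2 ⟨e, mem_filter.2 ⟨he, hve⟩⟩
  -- the vertices of `H` of small degree are frozen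
  have hbig : ∀ v ∈ hv, v ∉ Z → r + 1 ≤ dE Q v := by
    intro v hvh hvZ
    by_contra hlt
    have hnp : np EH E v ≤ dE Q v := np_le S hEG hZ.sub hvh hvZ
    refine hmax v hvZ
      { sub := insert_subset hvh hZ.sub
        two := fun u hu => ?_
        pair := fun u _ w _ _ => Or.inr (Or.inr (by omega))
        one := fun u _ w _ _ => Or.inr (by omega) }
    rcases mem_insert.1 hu with rfl | hu
    · omega
    · exact hZ.two u hu
  have hnZ : ∀ {v : V} {e : Sym2 V}, e ∈ Q → v ∈ e → v ∉ Z := fun {v e} he hve =>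
    (mem_nf.1 (hQnf he)).2 v hve
  rcases Q.eq_empty_or_nonempty with hQ0 | hQne
  · -- all edges outside `H` are frozen
    left
    obtain ⟨e, heE, heEH⟩ : ∃ e ∈ E, e ∉ EH := by
      by_contra hcon
      push Not at hcon
      exact hne (Subset.antisymm (fun e he => hcon e he) hEH)
    obtain ⟨y, hy, hye⟩ : ∃ y, y ∉ hv ∧ y ∈ e := by
      induction e using Sym2.ind with
      | _ a b =>
        by_cases ha : a ∈ hv
        · exact ⟨b, S.out ha (hEG heE) heEH, Sym2.mem_mk_right _ _⟩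
        · exact ⟨a, ha, Sym2.mem_mk_left _ _⟩
    refine ⟨y, hy, hpos heE hye, ?_⟩
    have h1 := hout y hy
    have h2 : dE Q y = 0 := by
      rw [hQ0]
      rfl
    omega
  by_cases hlow : ∃ v, 1 ≤ dE Q v ∧ dE Q v ≤ 2
  · left
    obtain ⟨v, hv1, hv2⟩ := hlow
    obtain ⟨e, he⟩ := card_pos.1 (show 0 < (Q.filter (fun e => v ∈ e)).card from hv1)
    obtain ⟨heQ, hve⟩ := mem_filter.1 he
    have heE := hnfE (hQnf heQ)
    have hvh : v ∉ hv := fun h => by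
      have := hbig v h (hnZ heQ hve)
      omega
    exact ⟨v, hvh, hpos heE hve, (hout v hvh).trans hv2⟩
  right
  rcases hLE Q ((hQnf.trans hnfE).trans hEG) hQne with h | ⟨x, y, hxy, hsum, hlt, hlt2⟩ |
    ⟨B, hBQ, hBne, hB⟩
  · exact absurd h hlow
  · push Not at hlow
    have hx3 : 3 ≤ dE Q x := by
      have h1 := hlow x (card_pos.2 ⟨_, mem_filter.2 ⟨hxy, Sym2.mem_mk_left _ _⟩⟩)
      omega
    obtain ⟨hxy1, hxy2⟩ := mem_sdiff.1 hxy
    have hxyE := hnfE hxy1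
    by_cases hx : x ∈ hv
    · right
      left
      exact ⟨x, y, hx, hnZ hxy (Sym2.mem_mk_left _ _), S.out hx (hEG hxyE) hxy2, hxyE,
        hbig x hx (hnZ hxy (Sym2.mem_mk_left _ _)), hsum⟩
    · by_cases hy : y ∈ hv
      · right
        left
        refine ⟨y, x, hy, hnZ hxy (Sym2.mem_mk_right _ _), hx, ?_,
          hbig y hy (hnZ hxy (Sym2.mem_mk_right _ _)), by omega⟩
        rw [Sym2.eq_swap]
        exact hxyE
      · left
        exact ⟨x, y, hx, hy, hxyE, hx3, hsum, hlt, hlt2⟩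
  · right
    right
    refine ⟨B, hBQ, hBne, fun e he => ?_⟩
    obtain ⟨x, y, hexy, hx, hy⟩ := hB e he
    refine ⟨x, y, hexy, fun h => ?_, hx, hy⟩
    have := hbig x h (hnZ (hBQ he) (by rw [hexy]; exact Sym2.mem_mk_left _ _))
    omega

variable {L : V → Finset ℕ} {M : Sym2 V → Finset ℕ} {k : ℕ} {c0 : V → ℕ} {g0 : Sym2 V → ℕ}

/-- **Main induction** -/
theorem ext_all3 (S : Setting G H hv EG EH Δ) (hr : 2 ≤ r) (hΔ : 2 * r + 2 ≤ Δ) (hk : k = Δ + 2)
    (hLs : ∀ v, v ∉ hv → k ≤ (L v).card) (hMs : ∀ e ∈ EG, e ∉ EH → k ≤ (M e).card)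
    (hLE : ∀ Q ⊆ EG, Q.Nonempty → Red Δ r Q)
    (hc0 : ∀ u v, H.Adj u v → c0 u ≠ c0 v) (hg0 : ∀ u v, H.Adj u v → g0 s(u, v) ≠ c0 u) (n : ℕ) :
    ∀ E : Finset (Sym2 V), E.card = n → EH ⊆ E → E ⊆ EG →
      ∃ c g, Good L M G hv EH c0 g0 E univ c g := by
  classical
  induction n using Nat.strong_induction_on with
  | _ n ih =>
    intro E hn hEH hEG
    by_cases hE : E = EH
    · rw [hE]
      exact base S hk hLs hc0 hg0 (by omega)
    · obtain ⟨Z, hZ, hcase⟩ := steps3 S hr hΔ hLE hEG hEH hE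
      rcases hcase with ⟨y, hy, hy1, hy2⟩ | ⟨x, y, hx, hy, hxy, h3, hsum, hlt, hlt2⟩ |
        ⟨x, y, hx, hxZ, hy, hxy, h3, hsum⟩ | ⟨B, hBQ, hBne, hB⟩
      · refine step1 S hLs hMs (by omega) (Or.inr (by omega)) hk hEG hEH hZ hy hy2 ?_
        refine ih _ ?_ _ rfl ?_ ((filter_subset _ _).trans hEG)
        · rw [← hn]
          refine card_lt_card ⟨filter_subset _ _, fun h => ?_⟩
          obtain ⟨e, he⟩ := card_pos.1 (show 0 < (E.filter (fun e => y ∈ e)).card from hy1)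
          obtain ⟨he1, he2⟩ := mem_filter.1 he
          exact (mem_filter.1 (h he1)).2 he2
        · intro e he
          exact mem_filter.2 ⟨hEH he, S.not_hv hy he⟩
      · refine step2 S hLs hMs hk hEG hEH hZ hx hy hxy h3 hsum hlt hlt2 ?_
        refine ih _ ?_ _ rfl ?_ ((filter_subset _ _).trans hEG)
        · rw [← hn]
          exact card_lt_card ⟨filter_subset _ _, fun h => (mem_cutE.1 (h hxy)).2.1 rfl⟩
        · intro e he
          refine mem_cutE.2 ⟨hEH he, ?_, fun h => absurd h (S.not_hv hx he)⟩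
          rintro rfl
          exact S.not_hv hx he (Sym2.mem_mk_left _ _)
      · refine step3 S hMs hk hEG hEH hZ hx hxZ hy hxy h3 hsum ?_
        refine ih _ ?_ _ rfl ?_ ((filter_subset _ _).trans hEG)
        · rw [← hn]
          exact card_lt_card ⟨filter_subset _ _, fun h => (mem_cutE.1 (h hxy)).2.1 rfl⟩
        · intro e he
          refine mem_cutE.2 ⟨hEH he, ?_, fun h => absurd h (S.not_hv hy he)⟩
          rintro rfl
          exact S.not_hv hy he (Sym2.mem_mk_right _ _)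
      · have hXm : ∀ x, x ∈ univ.filter (fun x => x ∉ hv ∧ dE (nf E Z \ EH) x ≤ r) ↔
            x ∉ hv ∧ dE (nf E Z \ EH) x ≤ r := by simp
        refine step4 S hLs hMs hk hΔ hEG hZ B hBQ
          (univ.filter (fun x => x ∉ hv ∧ dE (nf E Z \ EH) x ≤ r))
          (fun x hx => (hXm x).1 hx) (fun e he => ?_) (fun x hx y hy hxy => ?_) ?_
        · obtain ⟨x, y, hexy, hx, hx3, hy3, _⟩ := hB e he
          exact ⟨x, (hXm x).2 ⟨hx, hx3⟩, y, fun h => absurd ((hXm y).1 h).2 (by omega), hexy⟩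
        · obtain ⟨a, b, hab, ha, ha3, hb3, h1, h2⟩ := hB _ hxy
          rcases Sym2.eq_iff.1 hab with ⟨rfl, rfl⟩ | ⟨rfl, rfl⟩
          · exact ⟨h1, h2⟩
          · exact absurd ((hXm _).1 hx).2 (by omega)
        · refine ih _ ?_ _ rfl ?_ ((filter_subset _ _).trans hEG)
          · rw [← hn]
            refine card_lt_card ⟨filter_subset _ _, fun h => ?_⟩
            obtain ⟨e, he⟩ := hBne
            have heE : e ∈ E := (mem_nf.1 (mem_sdiff.1 (hBQ he)).1).1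
            exact (mem_filter.1 (h heE)).2.1 he
          · intro e he
            refine mem_filter.2 ⟨hEH he, fun h => (mem_sdiff.1 (hBQ h)).2 he, fun x hx hxe => ?_⟩
            exact absurd hxe (S.not_hv ((hXm x).1 hx).1 he)

end Pool.Agent.N410.TE
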