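import Pool.Agent.H239R2.Cover.PlanarP2
import Pool.Agent.N410.TE.Count

/-!
# Sparsity of planar graphs (graphs with a straight-line drawing)

The proofs of `P2.sparse` and `line_sparse` of `Pool.Agent.H239R2.Cover.PlanarP2` give the
versions below, for graphs all of whose nonempty even subgraphs have at least `g` edges.
-/

set_option autoImplicit false
set_option linter.unusedSectionVars false

namespace Pool.Agent.H239R2.Planar

namespace P2

open Filter Topology

noncomputable section

open Classical

variable {V E : Type} [Fintype V] [Fintype E] {tl hd : E → V} {X Y : V → ℝ}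

theorem sparse' (h : Good tl hd X Y) (g : ℕ)
    (hB : ∀ B : Finset E, B.Nonempty →
      (∀ v, Even (B.filter (fun e => tl e = v ∨ hd e = v)).card) → g ≤ B.card) :
    g * Module.finrank ℚ (Z tl hd) ≤ 2 * Fintype.card E := by
  obtain ⟨δ, hδ, hd'⟩ := exists_delta h.inj
  set W : Finset (Z tl hd →ₗ[ℚ] ℚ) :=
    ((Finset.univ.image (up tl hd X Y δ)) ∪ (Finset.univ.image (dn tl hd X Y δ))).erase 0 with hW
  have hWm : ∀ w ∈ W, w ≠ 0 ∧ ∃ e, up tl hd X Y δ e = w ∨ dn tl hd X Y δ e = w := by
    intro w hw
    simp only [hW, Finset.mem_erase, Finset.mem_union, Finset.mem_image, Finset.mem_univ,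
      true_and] at hw
    obtain ⟨h1, ⟨e, he⟩ | ⟨e, he⟩⟩ := hw
    · exact ⟨h1, e, Or.inl he⟩
    · exact ⟨h1, e, Or.inr he⟩
  -- the functionals separate points
  have hfin : Module.finrank ℚ (Z tl hd) ≤ W.card := by
    let Φ : Z tl hd →ₗ[ℚ] (W → ℚ) := LinearMap.pi (fun w => w.1)
    have hinj : Function.Injective Φ := by
      rw [← LinearMap.ker_eq_bot, LinearMap.ker_eq_bot']
      intro z hz
      have hz' : ∀ w ∈ W, w z = 0 := fun w hw => congrFun hz ⟨w, hw⟩
      have h0 : ∀ w, (∃ e, up tl hd X Y δ e = w ∨ dn tl hd X Y δ e = w) → w z = 0 := by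
        rintro w ⟨e, he⟩
        by_cases hw0 : w = 0
        · rw [hw0]; rfl
        · apply hz'
          simp only [hW, Finset.mem_erase, Finset.mem_union, Finset.mem_image, Finset.mem_univ,
            true_and]
          exact ⟨hw0, he.imp (fun h => ⟨e, h⟩) (fun h => ⟨e, h⟩)⟩
      ext e
      have h1 := h0 _ ⟨e, Or.inl rfl⟩
      have h2 := h0 _ ⟨e, Or.inr rfl⟩
      unfold dn at h2
      rw [LinearMap.add_apply, h1, zero_add, phi_apply] at h2
      simpa using h2
    have := LinearMap.finrank_le_finrank_of_injective hinj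
    simpa using this
  -- double counting
  have hsum : ∑ w ∈ W, (bd tl hd X Y δ w).card ≤ 2 * Fintype.card E := by
    have h1 : ∀ w, (bd tl hd X Y δ w).card = ∑ e : E, if e ∈ bd tl hd X Y δ w then 1 else 0 := by
      intro w
      rw [← Finset.card_filter]
      congr 1
      ext e
      simp
    simp only [h1]
    rw [Finset.sum_comm]
    calc ∑ e : E, ∑ w ∈ W, (if e ∈ bd tl hd X Y δ w then 1 else 0) ≤ ∑ _e : E, 2 := by
          refine Finset.sum_le_sum fun e _ => ?_
          rw [← Finset.card_filter]
          refine (Finset.card_le_card (t := {up tl hd X Y δ e, dn tl hd X Y δ e}) ?_).trans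
            Finset.card_le_two
          intro w hw
          simp only [bd, Finset.mem_filter, Finset.mem_univ, true_and] at hw
          simp only [Finset.mem_insert, Finset.mem_singleton]
          by_contra hcon
          push Not at hcon
          exact hw.2 (iff_of_false (Ne.symm hcon.1) (Ne.symm hcon.2))
      _ = 2 * Fintype.card E := by
          rw [Finset.sum_const, Finset.card_univ, smul_eq_mul, mul_comm]
  have hlow : W.card * g ≤ ∑ w ∈ W, (bd tl hd X Y δ w).card := by
    rw [← smul_eq_mul, ← Finset.sum_const]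
    refine Finset.sum_le_sum fun w hw => ?_
    obtain ⟨hw0, e, he⟩ := hWm w hw
    exact hB _ (bd_nonempty h hδ hd' hw0 e he) (bd_even h hδ hd' w)
  have h3 : g * W.card ≤ 2 * Fintype.card E := by
    rw [mul_comm]
    exact hlow.trans hsum
  exact (Nat.mul_le_mul_left g hfin).trans h3

end

end P2

open Filter Topology in
open Classical in
/-- Sparsity of a graph with a straight-line drawing in the plane. -/
theorem line_sparse' {V : Type} [Fintype V] (G : SimpleGraph V) (hG : HasStraightLineDrawing G)
    (g : ℕ) (A : Finset (Sym2 V)) (hA : (A : Set (Sym2 V)) ⊆ G.edgeSet)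
    (hg : ∀ B ⊆ A, B.Nonempty → (∀ v, Even (B.filter (fun e => v ∈ e)).card) → g ≤ B.card) :
    g * A.card ≤ g * rk A + 2 * A.card := by
  obtain ⟨p, hp, -, hcr⟩ := hG
  -- a linear change of coordinates making the abscissas distinct
  obtain ⟨ε, hε⟩ : ∃ ε : ℝ, Function.Injective (fun v => (p v).1 + ε * (p v).2) := by
    have h1 : ∀ q : V × V, ∀ᶠ ε : ℝ in 𝓝[>] (0:ℝ), q.1 ≠ q.2 →
        (p q.1).1 + ε * (p q.1).2 ≠ (p q.2).1 + ε * (p q.2).2 := by
      intro q
      by_cases hq : q.1 = q.2
      · exact Filter.Eventually.of_forall fun _ h => absurd hq h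
      by_cases h2 : (p q.1).1 = (p q.2).1
      · have h3 : (p q.1).2 ≠ (p q.2).2 := fun h3 => hq (hp (Prod.ext h2 h3))
        filter_upwards [eventually_mem_nhdsWithin] with ε hε _ h4
        have hε' : (0:ℝ) < ε := hε
        rw [h2] at h4
        exact h3 (mul_left_cancel₀ hε'.ne' (add_left_cancel h4))
      · have h3 : Tendsto (fun ε : ℝ => ((p q.1).1 + ε * (p q.1).2) - ((p q.2).1 + ε * (p q.2).2))
            (𝓝[>] 0) (𝓝 (((p q.1).1 + 0 * (p q.1).2) - ((p q.2).1 + 0 * (p q.2).2))) := by
          refine Tendsto.mono_left ?_ nhdsWithin_le_nhds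
          exact Continuous.tendsto (by fun_prop) 0
        have h4 : (((p q.1).1 + 0 * (p q.1).2) - ((p q.2).1 + 0 * (p q.2).2)) ≠ 0 := by
          simpa [sub_eq_zero] using h2
        filter_upwards [h3.eventually (isOpen_ne.mem_nhds h4)] with ε hε _ h5
        exact hε (sub_eq_zero.2 h5)
    obtain ⟨ε, h2⟩ := (Filter.eventually_all.2 h1).exists
    refine ⟨ε, fun u v huv => ?_⟩
    by_contra hne
    exact h2 (u, v) hne huv
  set X : V → ℝ := fun v => (p v).1 + ε * (p v).2 with hX
  set Y : V → ℝ := fun v => (p v).2 with hY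
  let E : Type := {e : V × V // s(e.1, e.2) ∈ A ∧ X e.1 < X e.2}
  let tl : E → V := fun e => e.1.1
  let hd : E → V := fun e => e.1.2
  have hgood : P2.Good tl hd X Y := by
    refine ⟨hε, fun e => e.2.2, ?_⟩
    rintro ⟨⟨u, v⟩, hA1, h1⟩ ⟨⟨u', v'⟩, hA2, h2⟩ hef x a1 a2 a3 a4 heq
    simp only [tl, hd] at a1 a2 a3 a4 h1 h2 hA1 hA2
    have adj1 : G.Adj u v := G.mem_edgeSet.1 (hA (by exact_mod_cast hA1))
    have adj2 : G.Adj u' v' := G.mem_edgeSet.1 (hA (by exact_mod_cast hA2))
    have hpt : ∀ a b : V, X a < X b → X a ≤ x → x ≤ X b →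
        ∃ q ∈ segment ℝ (p a) (p b), q.2 = Y a + (x - X a) * ((Y b - Y a) / (X b - X a)) ∧
          q.1 + ε * q.2 = x := by
      intro a b hab ha hb
      have hab' : X b - X a ≠ 0 := by linarith
      set t := (x - X a) / (X b - X a) with ht
      have ht' : t * (X b - X a) = x - X a := by rw [ht]; field_simp
      refine ⟨(1 - t) • p a + t • p b, ⟨1 - t, t, ?_, ?_, by ring, rfl⟩, ?_, ?_⟩
      · rw [sub_nonneg, ht, div_le_one (by linarith)]; linarith
      · rw [ht]; apply div_nonneg <;> linarith
      · simp only [Prod.snd_add, Prod.smul_snd, smul_eq_mul, hY]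
        rw [ht]
        ring
      · simp only [Prod.snd_add, Prod.smul_snd, smul_eq_mul, Prod.fst_add, Prod.smul_fst]
        have : (1 - t) * (p a).1 + t * (p b).1 + ε * ((1 - t) * (p a).2 + t * (p b).2) =
            X a + t * (X b - X a) := by simp only [hX]; ring
        rw [this, ht']
        ring
    obtain ⟨q, q1, q2, q3⟩ := hpt u v h1 a1.le a2.le
    obtain ⟨q', q1', q2', q3'⟩ := hpt u' v' h2 a3 a4
    have hq2 : q.2 = q'.2 := by
      rw [q2, q2']
      exact heq
    have hq : q = q' := by
      refine Prod.ext ?_ hq2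
      rw [hq2] at q3
      linarith
    rw [← hq] at q1'
    have hss : s(u, v) ≠ s(u', v') := by
      intro hs
      rw [Sym2.eq_iff] at hs
      rcases hs with ⟨r1, r2⟩ | ⟨r1, r2⟩
      · subst r1; subst r2; exact hef rfl
      · subst r1; subst r2; linarith
    obtain ⟨w, hw1, -, hw3⟩ := hcr u v u' v' adj1 adj2 hss q q1 q1'
    have hXw : X w = x := by
      rw [← q3, hw3]
    rcases hw1 with hw | hw
    · rw [hw] at hXw; linarith
    · rw [hw] at hXw; linarith
  -- the map to the edges
  have hinj : Function.Injective (fun e : E => s(e.1.1, e.1.2)) := by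
    rintro ⟨⟨u, v⟩, hA1, h1⟩ ⟨⟨u', v'⟩, hA2, h2⟩ hs
    simp only at hs h1 h2
    rw [Sym2.eq_iff] at hs
    rcases hs with ⟨r1, r2⟩ | ⟨r1, r2⟩
    · subst r1; subst r2; rfl
    · subst r1; subst r2; linarith
  have himg : (Finset.univ : Finset E).image (fun e : E => s(e.1.1, e.1.2)) = A := by
    ext a
    simp only [Finset.mem_image, Finset.mem_univ, true_and]
    constructor
    · rintro ⟨e, rfl⟩; exact e.2.1
    · intro ha
      induction a using Sym2.ind with
      | _ u v =>
        have adj : G.Adj u v := G.mem_edgeSet.1 (hA (by exact_mod_cast ha))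
        have hne : X u ≠ X v := fun h => adj.ne (hε h)
        rcases lt_or_gt_of_ne hne with h1 | h1
        · exact ⟨⟨(u, v), ha, h1⟩, rfl⟩
        · exact ⟨⟨(v, u), by rw [Sym2.eq_swap]; exact ha, h1⟩, Sym2.eq_swap⟩
  have hcard : Fintype.card E = A.card := by
    have h1 := congrArg Finset.card himg
    rw [Finset.card_image_of_injective _ hinj, Finset.card_univ] at h1
    exact h1
  -- girth
  have hB : ∀ B : Finset E, B.Nonempty →
      (∀ v, Even (B.filter (fun e => tl e = v ∨ hd e = v)).card) → g ≤ B.card := by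
    intro B hne hev
    have h1 := hg (B.image (fun e : E => s(e.1.1, e.1.2))) ?_ (hne.image _) ?_
    · rw [Finset.card_image_of_injective _ hinj] at h1
      exact h1
    · intro a ha
      obtain ⟨e, -, rfl⟩ := Finset.mem_image.1 ha
      exact e.2.1
    · intro v
      rw [Finset.filter_image, Finset.card_image_of_injective _ hinj]
      have h2 := hev v
      have h3 : (B.filter (fun e : E => v ∈ s(e.1.1, e.1.2))) =
          B.filter (fun e => tl e = v ∨ hd e = v) := by
        refine Finset.filter_congr fun e _ => ?_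
        rw [Sym2.mem_iff]
        simp only [tl, hd]
        tauto
      rw [h3]
      exact h2
  have hsp := P2.sparse' hgood g hB
  -- rank
  have hrk : Fintype.card E ≤ rk A + Module.finrank ℚ (P2.Z tl hd) := by
    let D : (E → ℚ) →ₗ[ℚ] (V → ℚ) :=
      Fintype.linearCombination ℚ (fun e : E => (Pi.single e.1.1 1 - Pi.single e.1.2 1 : V → ℚ))
    have h1 := D.finrank_range_add_finrank_ker
    rw [Module.finrank_fintype_fun_eq_card] at h1
    have h2 : Module.finrank ℚ D.range ≤ rk A := by
      unfold rk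
      apply Submodule.finrank_mono
      rw [Fintype.range_linearCombination]
      refine Submodule.span_mono ?_
      rintro _ ⟨e, rfl⟩
      exact ⟨e.1.1, e.1.2, e.2.1, rfl⟩
    have h3 : Module.finrank ℚ D.ker ≤ Module.finrank ℚ (P2.Z tl hd) := by
      apply Submodule.finrank_mono
      intro z hz v
      rw [LinearMap.mem_ker] at hz
      have h4 := congrFun hz v
      simp only [D, Fintype.linearCombination_apply, Finset.sum_apply, Pi.smul_apply,
        Pi.sub_apply, smul_eq_mul, Pi.zero_apply, mul_sub, Finset.sum_sub_distrib] at h4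
      have h5 : ∀ g : E → V, (∑ e : E, z e * (Pi.single (g e) (1:ℚ) : V → ℚ) v) =
          ∑ e : E, if g e = v then z e else 0 := by
        intro g
        refine Finset.sum_congr rfl fun e _ => ?_
        rw [Pi.single_apply]
        by_cases hv : g e = v
        · rw [if_pos hv, if_pos hv.symm, mul_one]
        · rw [if_neg hv, if_neg (Ne.symm hv), mul_zero]
      have h6 := h5 tl
      have h7 := h5 hd
      simp only [tl, hd] at h6 h7
      rw [h6, h7] at h4
      exact (sub_eq_zero.1 h4).symm
    omega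
  rw [hcard] at hsp hrk
  calc g * A.card ≤ g * (rk A + Module.finrank ℚ (P2.Z tl hd)) := Nat.mul_le_mul_left g hrk
    _ = g * rk A + g * Module.finrank ℚ (P2.Z tl hd) := by ring
    _ ≤ g * rk A + 2 * A.card := Nat.add_le_add_left hsp _

end Pool.Agent.H239R2.Planar

namespace Pool.Agent.N410.TE

open Finset Pool.Agent.H239R2.Planar

variable {V : Type} [Fintype V] [DecidableEq V]

/-- the rank is less than the number of covered vertices -/
theorem rk_lt {V : Type} [Fintype V] [inst : DecidableEq V] (A : Finset (Sym2 V))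
    (hne : A.Nonempty) : rk A + 1 ≤ (cov A).card := by
  obtain rfl : inst = (fun a b => Classical.propDecidable (a = b)) := Subsingleton.elim _ _
  classical
  obtain ⟨e, he⟩ := hne
  obtain ⟨v0, hv0⟩ : ∃ v, v ∈ e := by
    induction e using Sym2.ind with
    | _ a b => exact ⟨a, Sym2.mem_mk_left _ _⟩
  have hv0c : v0 ∈ cov A := mem_cov'.2 ⟨e, he, hv0⟩
  rw [← card_erase_add_one hv0c, Nat.add_le_add_iff_right]
  unfold rk
  set W := Submodule.span ℚ {x : V → ℚ | ∃ u v : V, s(u, v) ∈ A ∧
    x = Pi.single u 1 - Pi.single v 1} with hW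
  have hsup : ∀ x ∈ W, (∀ v, v ∉ cov A → x v = 0) ∧ ∑ v, x v = 0 := by
    intro x hx
    induction hx using Submodule.span_induction with
    | mem x hx =>
      obtain ⟨a, b, hab, rfl⟩ := hx
      have ha : a ∈ cov A := mem_cov'.2 ⟨_, hab, Sym2.mem_mk_left _ _⟩
      have hb : b ∈ cov A := mem_cov'.2 ⟨_, hab, Sym2.mem_mk_right _ _⟩
      constructor
      · intro v hv
        have e1 : v ≠ a := fun h => hv (h ▸ ha)
        have e2 : v ≠ b := fun h => hv (h ▸ hb)
        rw [Pi.sub_apply, Pi.single_apply, Pi.single_apply, if_neg e1, if_neg e2, sub_zero]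
      · have h5 : ∀ a : V, ∑ z : V, (Pi.single a (1 : ℚ) : V → ℚ) z = 1 := fun a => by
          simp only [Pi.single_apply, sum_ite_eq', mem_univ, if_true]
        simp only [Pi.sub_apply, sum_sub_distrib]
        rw [h5, h5, sub_self]
    | zero => exact ⟨fun _ _ => rfl, by simp⟩
    | add x y _ _ h1 h2 =>
      refine ⟨fun v hv => ?_, ?_⟩
      · rw [Pi.add_apply, h1.1 v hv, h2.1 v hv, add_zero]
      · simp only [Pi.add_apply, sum_add_distrib, h1.2, h2.2, add_zero]
    | smul c x _ h1 =>
      refine ⟨fun v hv => ?_, ?_⟩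
      · rw [Pi.smul_apply, h1.1 v hv, smul_zero]
      · simp only [Pi.smul_apply, smul_eq_mul, ← mul_sum, h1.2, mul_zero]
  let R : W →ₗ[ℚ] ({v // v ∈ (cov A).erase v0} → ℚ) :=
    (LinearMap.funLeft ℚ ℚ (Subtype.val : {v // v ∈ (cov A).erase v0} → V)).comp W.subtype
  have hR : Function.Injective R := by
    rw [← LinearMap.ker_eq_bot, LinearMap.ker_eq_bot']
    intro x hx
    obtain ⟨h1, h2⟩ := hsup x.1 x.2
    have h3 : ∀ v, v ≠ v0 → x.1 v = 0 := by
      intro v hv
      by_cases hvc : v ∈ cov A
      · exact congrFun hx ⟨v, mem_erase.2 ⟨hv, hvc⟩⟩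
      · exact h1 v hvc
    ext v
    by_cases hv : v = v0
    · rw [hv]
      rw [← add_sum_erase univ _ (mem_univ v0)] at h2
      rw [sum_eq_zero (fun z hz => h3 z (ne_of_mem_erase hz)), add_zero] at h2
      exact h2
    · exact h3 v hv
  have := LinearMap.finrank_le_finrank_of_injective hR
  rw [Module.finrank_fintype_fun_eq_card, Fintype.card_coe] at this
  exact this

/-- an even set of edges has at least three members -/
theorem three_le_of_even {B : Finset (Sym2 V)} (hdiag : ∀ e ∈ B, ¬ e.IsDiag) (hne : B.Nonempty)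
    (hev : ∀ v, Even (dE B v)) : 3 ≤ B.card := by
  obtain ⟨e, he⟩ := hne
  induction e using Sym2.ind with
  | _ a b =>
    have hab : a ≠ b := fun h => hdiag _ he (by rw [Sym2.mk_isDiag_iff]; exact h)
    have h2 : ∀ v, v ∈ s(a, b) → ∃ f ∈ B, f ≠ s(a, b) ∧ v ∈ f := by
      intro v hv
      by_contra hcon
      push Not at hcon
      have h1 : dE B v = 1 := by
        unfold dE
        rw [card_eq_one]
        refine ⟨s(a, b), ?_⟩
        ext f
        rw [mem_filter, mem_singleton]
        constructor
        · rintro ⟨hf, hvf⟩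
          by_contra hne
          exact hcon f hf hne hvf
        · rintro rfl
          exact ⟨he, hv⟩
      have h3 := hev v
      rw [h1] at h3
      exact absurd h3 (by decide)
    obtain ⟨f, hf, hfe, haf⟩ := h2 a (Sym2.mem_mk_left _ _)
    obtain ⟨g, hg, hge, hbg⟩ := h2 b (Sym2.mem_mk_right _ _)
    have hfg : f ≠ g := by
      rintro rfl
      exact hfe ((Sym2.mem_and_mem_iff hab).1 ⟨haf, hbg⟩)
    have h3 : ({s(a, b), f, g} : Finset (Sym2 V)) ⊆ B := by
      intro x hx
      simp only [mem_insert, mem_singleton] at hx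
      rcases hx with rfl | rfl | rfl
      · exact he
      · exact hf
      · exact hg
    have h4 : ({s(a, b), f, g} : Finset (Sym2 V)).card = 3 := by
      rw [card_insert_of_notMem, card_pair hfg]
      simp only [mem_insert, mem_singleton, not_or]
      exact ⟨hfe.symm, hge.symm⟩
    rw [← h4]
    exact card_le_card h3

theorem four_le_of_even {B : Finset (Sym2 V)} (hdiag : ∀ e ∈ B, ¬ e.IsDiag) (hne : B.Nonempty)
    (hev : ∀ v, Even (dE B v)) {X : Finset V}
    (hX : ∀ e ∈ B, ∃ x ∈ X, ∃ y, y ∉ X ∧ e = s(x, y)) : 4 ≤ B.card := by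
  have h3 := three_le_of_even hdiag hne hev
  have h1 : B.card = ∑ x ∈ X, dE B x := by
    rw [← card_meet B X (fun e he x hx y hy hxe hye => ?_)]
    · congr 1
      ext e
      rw [mem_filter]
      refine ⟨fun he => ⟨he, ?_⟩, fun h => h.1⟩
      obtain ⟨x, hx, y, _, hxy⟩ := hX e he
      exact ⟨x, hx, by rw [hxy]; exact Sym2.mem_mk_left _ _⟩
    · obtain ⟨a, ha, b, hb, hab⟩ := hX e he
      rw [hab, Sym2.mem_iff] at hxe hye
      rcases hxe with rfl | rfl <;> rcases hye with rfl | rfl
      · rfl
      · exact absurd hy hb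
      · exact absurd hx hb
      · rfl
  have h2 : Even B.card := by
    rw [h1]
    exact even_sum _ fun x _ => hev x
  rcases h2 with ⟨r, hr⟩
  omega

/-- an even set of edges of a triangle-free graph has at least four members -/
theorem four_le_of_even' {G : SimpleGraph V} (hT : G.CliqueFree 3) {B : Finset (Sym2 V)}
    (hB : ∀ e ∈ B, e ∈ G.edgeSet) (hne : B.Nonempty) (hev : ∀ v, Even (dE B v)) :
    4 ≤ B.card := by
  have hdiag : ∀ e ∈ B, ¬ e.IsDiag := fun e he => G.not_isDiag_of_mem_edgeSet (hB e he)
  have h3 := three_le_of_even hdiag hne hev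
  by_contra hlt
  have hc : B.card = 3 := by omega
  have hone : ∀ v f, f ∈ B → v ∈ f → ∃ g ∈ B, g ≠ f ∧ v ∈ g := by
    intro v f hf hv
    by_contra hcon
    push Not at hcon
    have h1 : dE B v = 1 := by
      unfold dE
      rw [card_eq_one]
      refine ⟨f, ?_⟩
      ext g
      rw [mem_filter, mem_singleton]
      constructor
      · rintro ⟨hg, hvg⟩
        by_contra hne
        exact hcon g hg hne hvg
      · rintro rfl
        exact ⟨hf, hv⟩
    have h3 := hev v
    rw [h1] at h3
    exact absurd h3 (by decide)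
  obtain ⟨e, he⟩ := hne
  induction e using Sym2.ind with
  | _ a b =>
    have hab : a ≠ b := fun h => hdiag _ he (by rw [Sym2.mk_isDiag_iff]; exact h)
    obtain ⟨f, hf, hfe, haf⟩ := hone a _ he (Sym2.mem_mk_left _ _)
    obtain ⟨g, hg, hge, hbg⟩ := hone b _ he (Sym2.mem_mk_right _ _)
    obtain ⟨c, rfl⟩ := haf
    obtain ⟨d, rfl⟩ := hbg
    have hcb : c ≠ b := by
      rintro rfl
      exact hfe rfl
    have hda : d ≠ a := by
      rintro rfl
      exact hge Sym2.eq_swap
    have hac : a ≠ c := fun h => hdiag _ hf (by rw [Sym2.mk_isDiag_iff]; exact h)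
    have hfg : s(a, c) ≠ s(b, d) := by
      intro h
      rcases Sym2.eq_iff.1 h with ⟨h1, _⟩ | ⟨h1, _⟩
      · exact hab h1
      · exact hda h1.symm
    have h4 : ({s(a, b), s(a, c), s(b, d)} : Finset (Sym2 V)) ⊆ B := by
      intro x hx
      simp only [mem_insert, mem_singleton] at hx
      rcases hx with rfl | rfl | rfl
      · exact he
      · exact hf
      · exact hg
    have h5 : ({s(a, b), s(a, c), s(b, d)} : Finset (Sym2 V)).card = 3 := by
      rw [card_insert_of_notMem, card_pair hfg]
      simp only [mem_insert, mem_singleton, not_or]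
      exact ⟨hfe.symm, hge.symm⟩
    have h6 : ({s(a, b), s(a, c), s(b, d)} : Finset (Sym2 V)) = B :=
      eq_of_subset_of_card_le h4 (by omega)
    obtain ⟨g', hg', hne', hcg⟩ := hone c _ hf (Sym2.mem_mk_right _ _)
    rw [← h6] at hg'
    simp only [mem_insert, mem_singleton] at hg'
    have hcd : c = d := by
      rcases hg' with rfl | rfl | rfl
      · rcases Sym2.mem_iff.1 hcg with h | h
        · exact absurd h.symm hac
        · exact absurd h hcb
      · exact absurd rfl hne'
      · rcases Sym2.mem_iff.1 hcg with h | h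
        · exact absurd h hcb
        · exact h
    subst hcd
    have k1 : G.Adj a b := hB _ he
    have k2 : G.Adj a c := hB _ hf
    have k3 : G.Adj b c := hB _ hg
    exact hT {a, b, c} (SimpleGraph.is3Clique_triple_iff.2 ⟨k1, k2, k3⟩)

/-- **Euler's inequality** for graphs with a straight-line drawing -/
theorem planar_three {G : SimpleGraph V} (hG : HasStraightLineDrawing G) {A : Finset (Sym2 V)}
    (hA : ∀ e ∈ A, e ∈ G.edgeSet) (hne : A.Nonempty) : A.card < 3 * (cov A).card := by
  have hd : ∀ e ∈ A, ¬ e.IsDiag := fun e he => G.not_isDiag_of_mem_edgeSet (hA e he)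
  have h1 := line_sparse' G hG 3 A (fun e he => hA e (by exact_mod_cast he)) (fun B hB hBne hev =>
    three_le_of_even (fun e he => hd e (hB he)) hBne (fun v => by
      have := hev v
      unfold dE
      convert this))
  have h2 := rk_lt A hne
  omega

theorem planar_bip {G : SimpleGraph V} (hG : HasStraightLineDrawing G) {A : Finset (Sym2 V)}
    (hA : ∀ e ∈ A, e ∈ G.edgeSet) {X : Finset V}
    (hX : ∀ e ∈ A, ∃ x ∈ X, ∃ y, y ∉ X ∧ e = s(x, y)) : A.card ≤ 2 * (cov A).card := by
  rcases A.eq_empty_or_nonempty with rfl | hne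
  · simp
  have hd : ∀ e ∈ A, ¬ e.IsDiag := fun e he => G.not_isDiag_of_mem_edgeSet (hA e he)
  have h1 := line_sparse' G hG 4 A (fun e he => hA e (by exact_mod_cast he)) (fun B hB hBne hev =>
    four_le_of_even (fun e he => hd e (hB he)) hBne (fun v => by
      have := hev v
      unfold dE
      convert this) (fun e he => hX e (hB he)))
  have h2 := rk_lt A hne
  omega

theorem planar_tri {G : SimpleGraph V} (hG : HasStraightLineDrawing G) (hT : G.CliqueFree 3)
    {A : Finset (Sym2 V)} (hA : ∀ e ∈ A, e ∈ G.edgeSet) (hne : A.Nonempty) :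
    2 * A.card < 4 * (cov A).card := by
  have h1 := line_sparse' G hG 4 A (fun e he => hA e (by exact_mod_cast he)) (fun B hB hBne hev =>
    four_le_of_even' hT (fun e he => hA e (hB he)) hBne (fun v => by
      have := hev v
      unfold dE
      convert this))
  have h2 := rk_lt A hne
  omega

end Pool.Agent.N410.TE
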