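import Pool.Agent.N410.TE.Greedy

/-!
# Reducible configurations for total colourings which extend a precoloured distance-3 matching
-/

set_option autoImplicit false
set_option linter.unusedSectionVars false

namespace Pool.Agent.N410.TE

open Finset

variable {V : Type} [Fintype V] [DecidableEq V]

/-- the setting: `hv` and `EH` are the vertices and edges of the distance-3 matching `H` -/
structure Setting (G H : SimpleGraph V) (hv : Finset V) (EG EH : Finset (Sym2 V)) (Δ : ℕ) : Prop where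
  memG : ∀ e, e ∈ EG ↔ e ∈ G.edgeSet
  memH : ∀ e, e ∈ EH ↔ e ∈ H.edgeSet
  memv : ∀ v, v ∈ hv ↔ ∃ w, H.Adj v w
  le : H ≤ G
  mat : ∀ u v w, H.Adj u v → H.Adj u w → v = w
  near1 : ∀ u ∈ hv, ∀ v ∈ hv, G.Adj u v → H.Adj u v
  near2 : ∀ y, ∀ u ∈ hv, ∀ v ∈ hv, G.Adj y u → G.Adj y v → u ≠ v → H.Adj u v
  deg : ∀ v, dE EG v ≤ Δ

/-- the number of the edges at `u` outside `H` -/
def np (EH E : Finset (Sym2 V)) (u : V) : ℕ := dE (E \ EH) u

/-- the edges without frozen end -/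
def nf (E : Finset (Sym2 V)) (Z : Finset V) : Finset (Sym2 V) := E.filter (fun e => ∀ v ∈ e, v ∉ Z)

/-- the frozen vertices -/
structure Inv (H : SimpleGraph V) (hv : Finset V) (EH : Finset (Sym2 V)) (Δ r : ℕ)
    (E : Finset (Sym2 V)) (Z : Finset V) : Prop where
  sub : Z ⊆ hv
  two : ∀ u ∈ Z, np EH E u ≤ r
  pair : ∀ u ∈ Z, ∀ w ∈ Z, H.Adj u w → np EH E u ≤ 1 ∨ np EH E w ≤ 1 ∨ 6 ≤ Δ
  one : ∀ u ∈ Z, ∀ w, w ∉ Z → H.Adj u w → np EH E u ≤ 1 ∨ 6 ≤ Δ

section

variable {G H : SimpleGraph V} {hv : Finset V} {EG EH : Finset (Sym2 V)} {Δ r : ℕ}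

theorem mem_nf {E : Finset (Sym2 V)} {Z : Finset V} {e : Sym2 V} :
    e ∈ nf E Z ↔ e ∈ E ∧ ∀ v ∈ e, v ∉ Z := by simp [nf]

theorem Setting.ne (S : Setting G H hv EG EH Δ) {x y : V} (h : s(x, y) ∈ EG) : x ≠ y := by
  rw [S.memG, SimpleGraph.mem_edgeSet] at h
  exact h.ne

theorem Setting.adj (S : Setting G H hv EG EH Δ) {x y : V} (h : s(x, y) ∈ EG) : G.Adj x y := by
  rwa [S.memG, SimpleGraph.mem_edgeSet] at h

theorem Setting.hadj (S : Setting G H hv EG EH Δ) {x y : V} (h : s(x, y) ∈ EH) : H.Adj x y := by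
  rwa [S.memH, SimpleGraph.mem_edgeSet] at h

theorem Setting.not_hv (S : Setting G H hv EG EH Δ) {x : V} (hx : x ∉ hv) {e : Sym2 V}
    (he : e ∈ EH) : x ∉ e := by
  intro hxe
  obtain ⟨y, rfl⟩ := hxe
  exact hx ((S.memv x).2 ⟨y, S.hadj he⟩)

/-- an edge of `G` outside `H` at a vertex of `H` leads to a vertex outside `H` -/
theorem Setting.out (S : Setting G H hv EG EH Δ) {x y : V} (hx : x ∈ hv) (h : s(x, y) ∈ EG)
    (hEH : s(x, y) ∉ EH) : y ∉ hv := by
  intro hy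
  apply hEH
  rw [S.memH, SimpleGraph.mem_edgeSet]
  exact S.near1 x hx y hy (S.adj h)

theorem Setting.dE_EH (S : Setting G H hv EG EH Δ) (u : V) : dE EH u ≤ 1 := by
  unfold dE
  rw [card_le_one]
  intro e he f hf
  obtain ⟨he1, he2⟩ := mem_filter.1 he
  obtain ⟨hf1, hf2⟩ := mem_filter.1 hf
  obtain ⟨a, rfl⟩ := he2
  obtain ⟨b, rfl⟩ := hf2
  rw [S.mat u a b (S.hadj he1) (S.hadj hf1)]

theorem Setting.dE_le (S : Setting G H hv EG EH Δ) (E : Finset (Sym2 V)) (u : V) :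
    dE E u ≤ np EH E u + 1 := by
  have h1 : E ⊆ (E \ EH) ∪ EH := by
    intro e he
    by_cases h : e ∈ EH
    · exact mem_union_right _ h
    · exact mem_union_left _ (mem_sdiff.2 ⟨he, h⟩)
  refine (dE_mono h1 u).trans ((dE_union_le _ _ u).trans ?_)
  exact Nat.add_le_add_left (S.dE_EH u) _

/-- the frozen neighbours of a vertex outside `H` -/
def fz (E : Finset (Sym2 V)) (Z : Finset V) (y : V) : Finset V := Z.filter (fun u => s(y, u) ∈ E)

theorem mem_fz {E : Finset (Sym2 V)} {Z : Finset V} {y u : V} :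
    u ∈ fz E Z y ↔ u ∈ Z ∧ s(y, u) ∈ E := by simp [fz]

theorem Setting.cases (S : Setting G H hv EG EH Δ) {y : V} (U : Finset V) (hU : U ⊆ hv)
    (hUE : ∀ u ∈ U, s(y, u) ∈ EG) :
    U = ∅ ∨ (∃ u, U = {u}) ∨ ∃ u w, u ≠ w ∧ H.Adj u w ∧ U = {u, w} := by
  rcases U.eq_empty_or_nonempty with h | ⟨u, hu⟩
  · exact Or.inl h
  right
  rcases (U.erase u).eq_empty_or_nonempty with h | ⟨w, hw⟩
  · left
    refine ⟨u, ?_⟩
    rw [← insert_erase hu, h]
    rfl
  · right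
    obtain ⟨hwu, hwU⟩ := mem_erase.1 hw
    have h1 := S.near2 y u (hU hu) w (hU hwU) (S.adj (hUE u hu)) (S.adj (hUE w hwU)) hwu.symm
    refine ⟨u, w, hwu.symm, h1, ?_⟩
    ext z
    rw [mem_insert, mem_singleton]
    constructor
    · intro hz
      by_contra hcon
      push Not at hcon
      have h2 := S.near2 y u (hU hu) z (hU hz) (S.adj (hUE u hu)) (S.adj (hUE z hz)) hcon.1.symm
      exact hcon.2 (S.mat u z w h2 h1)
    · rintro (rfl | rfl)
      · exact hu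
      · exact hwU

theorem Setting.fz_card (S : Setting G H hv EG EH Δ) {y : V} (U : Finset V) (hU : U ⊆ hv)
    (hUE : ∀ u ∈ U, s(y, u) ∈ EG) : U.card ≤ 2 := by
  rcases S.cases U hU hUE with h | ⟨u, h⟩ | ⟨u, w, _, _, h⟩
  · rw [h]; simp
  · rw [h]; simp
  · rw [h]; exact card_le_two

variable {α : Type} [DecidableEq α] {L : V → Finset α} {M : Sym2 V → Finset α}
  {k : ℕ} {c0 : V → α} {g0 : Sym2 V → α}

/-- colour the edges to the frozen neighbours -/
theorem addU (S : Setting G H hv EG EH Δ) (hMs : ∀ e ∈ EG, e ∉ EH → k ≤ (M e).card) {E E0 : Finset (Sym2 V)} (hE : E ⊆ EG) {Z : Finset V}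
    (hZ : Inv H hv EH Δ r E Z) {y : V} (hy : y ∉ hv) (U : Finset V) (hU : U ⊆ Z)
    (hUE : ∀ u ∈ U, s(y, u) ∈ E) (hU0 : ∀ u ∈ U, s(y, u) ∉ E0) (hE0 : E0 ⊆ E) (d : ℕ)
    (hd : dE E0 y ≤ d) (h1 : d + r + 2 < k)
    (h2 : ∀ u ∈ U, ∀ w ∈ U, u ≠ w → ∀ n, n ≤ r → (n ≤ 1 ∨ 6 ≤ Δ) → d + 3 + n < k)
    {c : V → α} {g : Sym2 V → α} (h : Good L M G hv EH c0 g0 E0 univ c g) :
    ∃ g', Good L M G hv EH c0 g0 (E0 ∪ U.image (fun u => s(y, u))) univ c g' := by
  have hyEH : ∀ u, s(y, u) ∉ EH := fun u hu => S.not_hv hy hu (Sym2.mem_mk_left _ _)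
  have hUhv : U ⊆ hv := hU.trans hZ.sub
  have hcol : ∀ u ∈ U, c y ≠ c u := fun u hu =>
    h.nbr y (mem_univ _) u (hUhv hu) (S.adj (hE (hUE u hu)))
  have hdu : ∀ u ∈ U, dE E0 u ≤ np EH E u := by
    intro u hu
    have h3 := dE_lt hE0 (hUE u hu) (hU0 u hu) (Sym2.mem_mk_right y u)
    have h4 := S.dE_le E u
    omega
  -- the second edge
  have two : ∀ u w, u ≠ w → u ∈ U → w ∈ U → (np EH E w ≤ 1 ∨ 6 ≤ Δ) →
      ∃ g', Good L M G hv EH c0 g0 (insert s(y, w) (insert s(y, u) E0)) univ c g' := by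
    intro u w huw hu hw hn
    obtain ⟨g1, hg1⟩ := add_edge h (hMs _ (hE (hUE u hu)) (hyEH u)) (hU0 u hu) (hyEH u) (fun _ _ => hcol u hu) (by
      have h3 := hdu u hu
      have h4 := hZ.two u (hU hu)
      simp only [mem_univ, if_true]
      omega)
    have hwy : w ≠ y := fun h5 => hy (h5 ▸ hUhv hw)
    have hne : s(y, w) ≠ s(y, u) := fun h5 => huw (Sym2.congr_right.1 h5).symm
    refine add_edge hg1 (hMs _ (hE (hUE w hw)) (hyEH w)) (fun h5 => ?_) (hyEH w) (fun _ _ => hcol w hw) ?_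
    · rcases mem_insert.1 h5 with h5 | h5
      · exact hne h5
      · exact hU0 w hw h5
    · have h3 := hdu w hw
      have h4 := hZ.two w (hU hw)
      have h5 := dE_insert_le E0 s(y, u) y
      have h6 : dE (insert s(y, u) E0) w = dE E0 w := dE_insert_ne _ _ _ (by
        rw [Sym2.mem_iff]
        push Not
        exact ⟨hwy, huw.symm⟩)
      have h7 := h2 u hu w hw huw (np EH E w) h4 hn
      simp only [mem_univ, if_true]
      omega
  rcases S.cases U hUhv (fun u hu => hE (hUE u hu)) with rfl | ⟨u, rfl⟩ | ⟨u, w, huw, hadj, rfl⟩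
  · refine ⟨g, ?_⟩
    rw [image_empty, union_empty]
    exact h
  · have hu : u ∈ ({u} : Finset V) := mem_singleton_self _
    rw [image_singleton, union_comm, ← insert_eq]
    refine add_edge h (hMs _ (hE (hUE u hu)) (hyEH u)) (hU0 u hu) (hyEH u) (fun _ _ => hcol u hu) ?_
    have h3 := hdu u hu
    have h4 := hZ.two u (hU hu)
    simp only [mem_univ, if_true]
    omega
  · have hu : u ∈ ({u, w} : Finset V) := mem_insert_self _ _
    have hw : w ∈ ({u, w} : Finset V) := mem_insert_of_mem (mem_singleton_self _)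
    have e1 : E0 ∪ ({u, w} : Finset V).image (fun u => s(y, u)) =
        insert s(y, w) (insert s(y, u) E0) := by
      ext e
      simp only [mem_union, mem_image, mem_insert, mem_singleton]
      constructor
      · rintro (h5 | ⟨v, rfl | rfl, rfl⟩)
        · exact Or.inr (Or.inr h5)
        · exact Or.inr (Or.inl rfl)
        · exact Or.inl rfl
      · rintro (h5 | h5 | h5)
        · exact Or.inr ⟨w, Or.inr rfl, h5.symm⟩
        · exact Or.inr ⟨u, Or.inl rfl, h5.symm⟩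
        · exact Or.inl h5
    rw [e1]
    rcases hZ.pair u (hU hu) w (hU hw) hadj with h3 | h3 | h3
    · rw [insert_comm]
      exact two w u huw.symm hw hu (Or.inl h3)
    · exact two u w huw hu hw (Or.inl h3)
    · exact two u w huw hu hw (Or.inr h3)

/-- colour at most two edges at an uncoloured vertex -/
theorem addP (S : Setting G H hv EG EH Δ) (hMs : ∀ e ∈ EG, e ∉ EH → k ≤ (M e).card) (hk : k = Δ + 2) {E0 : Finset (Sym2 V)} (hE0 : E0 ⊆ EG)
    {y : V} (hy : y ∉ hv) {c : V → α} {g : Sym2 V → α}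
    (h : Good L M G hv EH c0 g0 E0 (univ.erase y) c g) (P : Finset (Sym2 V)) :
    (∀ e ∈ P, y ∈ e ∧ e ∈ EG ∧ e ∉ E0) → dE E0 y + P.card ≤ 2 →
    ∃ g', Good L M G hv EH c0 g0 (E0 ∪ P) (univ.erase y) c g' := by
  induction P using Finset.induction_on with
  | empty =>
    intro _ _
    exact ⟨g, by rw [union_empty]; exact h⟩
  | @insert e P heP ih =>
    intro h1 h2
    rw [card_insert_of_notMem heP] at h2
    obtain ⟨g1, hg1⟩ := ih (fun f hf => h1 f (mem_insert_of_mem hf)) (by omega)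
    obtain ⟨hye, heG, heE0⟩ := h1 e (mem_insert_self _ _)
    obtain ⟨a, rfl⟩ := hye
    have hya : y ≠ a := S.ne heG
    have hsub : E0 ∪ P ⊆ EG := union_subset hE0 fun f hf => (h1 f (mem_insert_of_mem hf)).2.1
    have hnot : s(y, a) ∉ E0 ∪ P := by
      rw [mem_union]
      push Not
      exact ⟨heE0, heP⟩
    have e1 : E0 ∪ insert s(y, a) P = insert s(y, a) (E0 ∪ P) := by
      rw [union_insert]
    rw [e1]
    have hnEH : s(y, a) ∉ EH := fun h5 => S.not_hv hy h5 (Sym2.mem_mk_left _ _)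
    refine add_edge hg1 (hMs _ heG hnEH) hnot hnEH
      (fun h5 => absurd h5 (notMem_erase y _)) ?_
    have h3 := dE_lt hsub heG hnot (Sym2.mem_mk_right y a)
    have h4 := S.deg a
    have h5 : dE (E0 ∪ P) y ≤ dE E0 y + P.card := by
      refine (dE_union_le _ _ y).trans (Nat.add_le_add_left ?_ _)
      exact card_le_card (filter_subset _ _)
    rw [if_neg (notMem_erase y _), if_pos (mem_erase.2 ⟨hya.symm, mem_univ _⟩)]
    omega

/-- the frozen edges at a vertex outside `H` -/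
theorem decomp {E : Finset (Sym2 V)} {Z : Finset V} {y : V} (hyZ : y ∉ Z) {e : Sym2 V} (he : e ∈ E)
    (hye : y ∈ e) : e ∈ nf E Z ∨ ∃ u ∈ fz E Z y, s(y, u) = e := by
  obtain ⟨a, rfl⟩ := hye
  by_cases ha : a ∈ Z
  · exact Or.inr ⟨a, mem_fz.2 ⟨ha, he⟩, rfl⟩
  · left
    refine mem_nf.2 ⟨he, fun v hv => ?_⟩
    rcases Sym2.mem_iff.1 hv with rfl | rfl
    · exact hyZ
    · exact ha

theorem fz_not_nf {E : Finset (Sym2 V)} {Z : Finset V} {y u : V} (hu : u ∈ fz E Z y) :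
    s(y, u) ∉ nf E Z := fun h => (mem_nf.1 h).2 u (Sym2.mem_mk_right _ _) (mem_fz.1 hu).1

/-- **First step**: a vertex outside `H` with at most two neighbours which are not frozen. -/
theorem step1 (S : Setting G H hv EG EH Δ) (hLs : ∀ v, v ∉ hv → k ≤ (L v).card)
    (hMs : ∀ e ∈ EG, e ∉ EH → k ≤ (M e).card) (hΔ : 5 ≤ Δ) (hr : r ≤ 2 ∨ r + 4 ≤ Δ)
    (hk : k = Δ + 2) {E : Finset (Sym2 V)}
    (hEG : E ⊆ EG) (hEH : EH ⊆ E) {Z : Finset V} (hZ : Inv H hv EH Δ r E Z) {y : V} (hy : y ∉ hv)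
    (h2 : dE (nf E Z) y ≤ 2)
    (ih : ∃ c g, Good L M G hv EH c0 g0 (E.filter (fun e => y ∉ e)) univ c g) :
    ∃ c g, Good L M G hv EH c0 g0 E univ c g := by
  obtain ⟨c, g, hg⟩ := ih
  have hyZ : y ∉ Z := fun h => hy (hZ.sub h)
  set E0 := E.filter (fun e => y ∉ e) with hE0
  have hE0E : E0 ⊆ E := filter_subset _ _
  set P := (nf E Z).filter (fun e => y ∈ e) with hP
  have hPE : P ⊆ E := fun e he => (mem_nf.1 (mem_filter.1 he).1).1
  have hd0 : dE E0 y = 0 := by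
    unfold dE
    rw [card_eq_zero, filter_eq_empty_iff]
    intro e he
    exact (mem_filter.1 he).2
  obtain ⟨g1, hg1⟩ := addP S hMs hk (hE0E.trans hEG) hy (hg.mono (Subset.refl _) (erase_subset y univ)) P
    (fun e he => ⟨(mem_filter.1 he).2, hEG (hPE he), fun h => (mem_filter.1 h).2 (mem_filter.1 he).2⟩)
    (by
      rw [hd0]
      have : P.card = dE (nf E Z) y := rfl
      omega)
  have hdP : dE (E0 ∪ P) y ≤ 2 := by
    refine (dE_union_le _ _ y).trans ?_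
    have h3 : dE P y ≤ P.card := card_le_card (filter_subset _ _)
    have h4 : P.card = dE (nf E Z) y := rfl
    omega
  have hEP : E0 ∪ P ⊆ E := union_subset hE0E hPE
  obtain ⟨c2, hg2⟩ := add_vertex hg1 (fun v hv => (S.ne (hEG (hEP hv))) rfl) hy
    (hLs y hy)
    (hv.filter (fun u => s(y, u) ∈ EG)) (fun u hu hyu => mem_filter.2 ⟨hu, (S.memG _).2 hyu⟩)
    (S.fz_card (y := y) _ (filter_subset _ _) (fun u hu => (mem_filter.1 hu).2)) (by omega)
  rw [insert_erase (mem_univ y)] at hg2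
  obtain ⟨g3, hg3⟩ := addU S hMs hEG hZ hy (fz E Z y) (filter_subset _ _)
    (fun u hu => (mem_fz.1 hu).2) (fun u hu h => by
      rcases mem_union.1 h with h | h
      · exact (mem_filter.1 h).2 (Sym2.mem_mk_left _ _)
      · exact fz_not_nf hu (mem_filter.1 h).1) hEP 2 hdP (by omega)
    (fun u _ w _ _ n h3 h4 => by omega) hg2
  refine ⟨c2, g3, hg3.mono ?_ (Subset.refl _)⟩
  intro e he
  by_cases hye : y ∈ e
  · rcases decomp hyZ he hye with h | ⟨u, hu, rfl⟩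
    · exact mem_union_left _ (mem_union_right _ (mem_filter.2 ⟨h, hye⟩))
    · exact mem_union_right _ (mem_image_of_mem _ hu)
  · exact mem_union_left _ (mem_union_left _ (mem_filter.2 ⟨he, hye⟩))

/-- the edges without the edge `s(x, y)` and without the frozen edges at `z` -/
def cutE (E : Finset (Sym2 V)) (Z : Finset V) (f : Sym2 V) (z : V) : Finset (Sym2 V) :=
  E.filter (fun e => e ≠ f ∧ (z ∈ e → ∀ v ∈ e, v ∉ Z))

theorem mem_cutE {E : Finset (Sym2 V)} {Z : Finset V} {f : Sym2 V} {z : V} {e : Sym2 V} :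
    e ∈ cutE E Z f z ↔ e ∈ E ∧ e ≠ f ∧ (z ∈ e → ∀ v ∈ e, v ∉ Z) := by simp [cutE]

/-- the degree of `x` outside `H` in `Q = nf E Z \ EH` -/
theorem dE_cut (S : Setting G H hv EG EH Δ) {E : Finset (Sym2 V)} {Z : Finset V} {x : V} {f : Sym2 V}
    (hx : x ∉ hv) (hf : f ∈ nf E Z) (hxf : x ∈ f) :
    dE (cutE E Z f x) x + 1 ≤ dE (nf E Z \ EH) x := by
  have hf2 : f ∈ nf E Z \ EH := mem_sdiff.2 ⟨hf, fun h => S.not_hv hx h hxf⟩
  unfold dE
  rw [← Nat.succ_eq_add_one, Nat.succ_le_iff]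
  refine card_lt_card ⟨fun e he => ?_, fun h1 => ?_⟩
  · obtain ⟨he1, he2⟩ := mem_filter.1 he
    obtain ⟨h3, h4, h5⟩ := mem_cutE.1 he1
    exact mem_filter.2 ⟨mem_sdiff.2 ⟨mem_nf.2 ⟨h3, h5 he2⟩, fun h => S.not_hv hx h he2⟩, he2⟩
  · have h2 := h1 (mem_filter.2 ⟨hf2, hxf⟩)
    exact (mem_cutE.1 (mem_filter.1 h2).1).2.1 rfl

/-- **Second step**: a light edge outside `H`. -/
theorem step2 (S : Setting G H hv EG EH Δ) (hLs : ∀ v, v ∉ hv → k ≤ (L v).card)
    (hMs : ∀ e ∈ EG, e ∉ EH → k ≤ (M e).card) (hk : k = Δ + 2) {E : Finset (Sym2 V)}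
    (hEG : E ⊆ EG) (hEH : EH ⊆ E) {Z : Finset V} (hZ : Inv H hv EH Δ r E Z) {x y : V} (hx : x ∉ hv)
    (hy : y ∉ hv) (hxy : s(x, y) ∈ E) (h3 : 3 ≤ dE (nf E Z \ EH) x)
    (hsum : dE (nf E Z \ EH) x + dE (nf E Z \ EH) y ≤ Δ) (hlt : 2 * dE (nf E Z \ EH) x < Δ)
    (hr : dE (nf E Z \ EH) x + r + 1 < Δ)
    (ih : ∃ c g, Good L M G hv EH c0 g0 (cutE E Z s(x, y) x) univ c g) :
    ∃ c g, Good L M G hv EH c0 g0 E univ c g := by
  obtain ⟨c, g, hg⟩ := ih
  have hxZ : x ∉ Z := fun h => hx (hZ.sub h)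
  have hyZ : y ∉ Z := fun h => hy (hZ.sub h)
  have hne : x ≠ y := S.ne (hEG hxy)
  set E0 := cutE E Z s(x, y) x with hE0
  have hE0E : E0 ⊆ E := filter_subset _ _
  have hxynf : s(x, y) ∈ nf E Z := mem_nf.2 ⟨hxy, fun v hv => by
    rcases Sym2.mem_iff.1 hv with rfl | rfl
    · exact hxZ
    · exact hyZ⟩
  have hdx : dE E0 x + 1 ≤ dE (nf E Z \ EH) x := dE_cut S hx hxynf (Sym2.mem_mk_left _ _)
  have hnot : s(x, y) ∉ E0 := fun h => (mem_cutE.1 h).2.1 rfl
  have hdy : dE E0 y + 1 ≤ dE (nf E Z \ EH) y + 2 := by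
    have h4 := dE_lt hE0E hxy hnot (Sym2.mem_mk_right x y)
    have h5 : dE E y ≤ dE (nf E Z \ EH) y + (fz E Z y).card := by
      unfold dE
      have h6 : E.filter (fun e => y ∈ e) ⊆ (nf E Z \ EH).filter (fun e => y ∈ e) ∪
          (fz E Z y).image (fun u => s(y, u)) := by
        intro e he
        obtain ⟨he1, he2⟩ := mem_filter.1 he
        rcases decomp hyZ he1 he2 with h | ⟨u, hu, rfl⟩
        · exact mem_union_left _ (mem_filter.2 ⟨mem_sdiff.2 ⟨h, fun h7 => S.not_hv hy h7 he2⟩, he2⟩)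
        · exact mem_union_right _ (mem_image_of_mem _ hu)
      exact (card_le_card h6).trans ((card_union_le _ _).trans
        (Nat.add_le_add_left card_image_le _))
    have h6 := S.fz_card (y := y) (fz E Z y) ((filter_subset _ _).trans hZ.sub)
      (fun u hu => hEG (mem_fz.1 hu).2)
    omega
  obtain ⟨g1, hg1⟩ := add_edge (hg.mono (Subset.refl _) (erase_subset x univ))
    (hMs _ (hEG hxy) (fun h => S.not_hv hx h (Sym2.mem_mk_left _ _))) hnot
    (fun h => S.not_hv hx h (Sym2.mem_mk_left _ _)) (fun h5 => absurd h5 (notMem_erase x _)) (by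
      rw [if_neg (notMem_erase x _), if_pos (mem_erase.2 ⟨hne.symm, mem_univ _⟩)]
      omega)
  have hsub : insert s(x, y) E0 ⊆ E := insert_subset hxy hE0E
  have hdx2 : dE (insert s(x, y) E0) x ≤ dE (nf E Z \ EH) x := by
    have := dE_insert_le E0 s(x, y) x
    omega
  obtain ⟨c2, hg2⟩ := add_vertex hg1 (fun v hv => (S.ne (hEG (hsub hv))) rfl) hx
    (hLs x hx)
    (hv.filter (fun u => s(x, u) ∈ EG)) (fun u hu hxu => mem_filter.2 ⟨hu, (S.memG _).2 hxu⟩)
    (S.fz_card (y := x) _ (filter_subset _ _) (fun u hu => (mem_filter.1 hu).2)) (by omega)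
  rw [insert_erase (mem_univ x)] at hg2
  obtain ⟨g3, hg3⟩ := addU S hMs hEG hZ hx (fz E Z x) (filter_subset _ _)
    (fun u hu => (mem_fz.1 hu).2) (fun u hu h => by
      rcases mem_insert.1 h with h | h
      · exact fz_not_nf hu (h ▸ hxynf)
      · exact (mem_cutE.1 h).2.2 (Sym2.mem_mk_left _ _) u (Sym2.mem_mk_right _ _) (mem_fz.1 hu).1)
    hsub _ hdx2 (by omega) (fun u _ w _ _ n h3 h4 => by omega) hg2
  refine ⟨c2, g3, hg3.mono ?_ (Subset.refl _)⟩
  intro e he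
  by_cases hexy : e = s(x, y)
  · exact mem_union_left _ (hexy ▸ mem_insert_self _ _)
  · by_cases hxe : x ∈ e
    · rcases decomp hxZ he hxe with h | ⟨u, hu, rfl⟩
      · exact mem_union_left _ (mem_insert_of_mem (mem_cutE.2 ⟨he, hexy, fun _ => (mem_nf.1 h).2⟩))
      · exact mem_union_right _ (mem_image_of_mem _ hu)
    · exact mem_union_left _ (mem_insert_of_mem (mem_cutE.2 ⟨he, hexy, fun h => absurd h hxe⟩))

/-- **Third step**: a light edge with one end in `H`. -/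
theorem step3 (S : Setting G H hv EG EH Δ)
    (hMs : ∀ e ∈ EG, e ∉ EH → k ≤ (M e).card) (hk : k = Δ + 2) {E : Finset (Sym2 V)}
    (hEG : E ⊆ EG) (hEH : EH ⊆ E) {Z : Finset V} (hZ : Inv H hv EH Δ r E Z) {x y : V} (hx : x ∈ hv)
    (hxZ : x ∉ Z) (hy : y ∉ hv) (hxy : s(x, y) ∈ E) (h3 : r + 1 ≤ dE (nf E Z \ EH) x)
    (hsum : dE (nf E Z \ EH) x + dE (nf E Z \ EH) y ≤ Δ)
    (ih : ∃ c g, Good L M G hv EH c0 g0 (cutE E Z s(x, y) y) univ c g) :
    ∃ c g, Good L M G hv EH c0 g0 E univ c g := by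
  obtain ⟨c, g, hg⟩ := ih
  have hyZ : y ∉ Z := fun h => hy (hZ.sub h)
  have hne : x ≠ y := S.ne (hEG hxy)
  set E0 := cutE E Z s(x, y) y with hE0
  have hE0E : E0 ⊆ E := filter_subset _ _
  have hxyEH : s(x, y) ∉ EH := fun h => S.not_hv hy h (Sym2.mem_mk_right _ _)
  have hxynf : s(x, y) ∈ nf E Z := mem_nf.2 ⟨hxy, fun v hv => by
    rcases Sym2.mem_iff.1 hv with rfl | rfl
    · exact hxZ
    · exact hyZ⟩
  have hdy : dE E0 y + 1 ≤ dE (nf E Z \ EH) y := dE_cut S hy hxynf (Sym2.mem_mk_right _ _)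
  have hnot : s(x, y) ∉ E0 := fun h => (mem_cutE.1 h).2.1 rfl
  have hdx : dE E0 x + 1 ≤ dE (nf E Z \ EH) x + 1 := by
    have h4 := dE_lt hE0E hxy hnot (Sym2.mem_mk_left x y)
    have h5 := S.dE_le E x
    have h6 : np EH E x ≤ dE (nf E Z \ EH) x := by
      unfold np dE
      refine card_le_card fun e he => ?_
      obtain ⟨he1, he2⟩ := mem_filter.1 he
      obtain ⟨he3, he4⟩ := mem_sdiff.1 he1
      refine mem_filter.2 ⟨mem_sdiff.2 ⟨?_, he4⟩, he2⟩
      obtain ⟨a, rfl⟩ := he2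
      refine mem_nf.2 ⟨he3, fun v hv => ?_⟩
      rcases Sym2.mem_iff.1 hv with rfl | rfl
      · exact hxZ
      · exact fun h => S.out hx (hEG he3) he4 (hZ.sub h)
    omega
  obtain ⟨g1, hg1⟩ := add_edge hg (hMs _ (hEG hxy) hxyEH) hnot hxyEH
    (fun _ _ => (hg.nbr y (mem_univ _) x hx (S.adj (hEG hxy)).symm).symm) (by
      simp only [mem_univ, if_true]
      omega)
  have hsub : insert s(x, y) E0 ⊆ E := insert_subset hxy hE0E
  have hdy2 : dE (insert s(x, y) E0) y ≤ dE (nf E Z \ EH) y := by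
    have := dE_insert_le E0 s(x, y) y
    omega
  obtain ⟨g3, hg3⟩ := addU S hMs hEG hZ hy (fz E Z y) (filter_subset _ _)
    (fun u hu => (mem_fz.1 hu).2) (fun u hu h => by
      rcases mem_insert.1 h with h | h
      · exact fz_not_nf hu (h ▸ hxynf)
      · exact (mem_cutE.1 h).2.2 (Sym2.mem_mk_left _ _) u (Sym2.mem_mk_right _ _) (mem_fz.1 hu).1)
    hsub _ hdy2 (by omega) (fun u hu w hw huw n h3 h4 => by
      exfalso
      have hu1 := mem_fz.1 hu
      have hw1 := mem_fz.1 hw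
      have hxu : x ≠ u := fun h5 => hxZ (h5 ▸ hu1.1)
      have hxw : x ≠ w := fun h5 => hxZ (h5 ▸ hw1.1)
      have a1 := S.near2 y x hx u (hZ.sub hu1.1) (S.adj (hEG hxy)).symm (S.adj (hEG hu1.2)) hxu
      have a2 := S.near2 y x hx w (hZ.sub hw1.1) (S.adj (hEG hxy)).symm (S.adj (hEG hw1.2)) hxw
      exact huw (S.mat x u w a1 a2)) hg1
  refine ⟨c, g3, hg3.mono ?_ (Subset.refl _)⟩
  intro e he
  by_cases hexy : e = s(x, y)
  · exact mem_union_left _ (hexy ▸ mem_insert_self _ _)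
  · by_cases hye : y ∈ e
    · rcases decomp hyZ he hye with h | ⟨u, hu, rfl⟩
      · exact mem_union_left _ (mem_insert_of_mem (mem_cutE.2 ⟨he, hexy, fun _ => (mem_nf.1 h).2⟩))
      · exact mem_union_right _ (mem_image_of_mem _ hu)
    · exact mem_union_left _ (mem_insert_of_mem (mem_cutE.2 ⟨he, hexy, fun h => absurd h hye⟩))

end

end Pool.Agent.N410.TE
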